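import Mathlib
import Pool.Agent.Run7.h479.NP.Dets
import Pool.Agent.Run7.h479.NP.Slopes

/-!
# Irreducibility for every `ℓ` from the Newton polygons of Hecke polynomials

Let `π` be an algebraic cuspidal automorphic representation of `GL_n` over `ℚ` and
`ρ : Gal(ℚbar/ℚ) → GL_n(ℚbar_ℓ)` a continuous representation attached to `π`. All that is assumed of
`π` is that its Satake parameters are algebraic at three primes `≠ ℓ`, and that at ONE of them, `p₁`,
either the Hecke polynomial is irreducible over some field (for example over the field generated by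
its coefficients), so that the automorphisms of `ℂ` permute the Satake parameters transitively, or the
Satake parameters have the same absolute value (Ramanujan). Let `μ` be the average slope, or the
common exponent, at `p₁`. Nothing is assumed at the infinite place (no regularity), no self-duality,
no compatible system, nothing at `ℓ` or at the ramified primes, and no semisimplicity of `ρ`.

**Theorem.** (1) For every subquotient of `ρ` of dimension `k` and every prime `p` in `T` some `k` of
the Satake parameters at `p` are *balanced*: for all identifications of the algebraic closure of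
`ℚ_p` with `ℂ` the sum of their slopes is `k μ`, and the product of their absolute values is
`p ^ (k μ)`.

(2) So `ρ` is irreducible if for every `0 < k < n` there is a prime `p` in `T` such that no `k` of
the Satake parameters at `p` are balanced. Different primes can be used for different `k`.

(3) Let the slopes of the Satake parameters at a prime `p` in `T`, for some identification, be
`b w_i + c` with real numbers `b ≠ 0` and `c` and natural numbers `w_i`, and `W = ∑ w_i`. Then `n`
divides `k W` for the dimension `k` of every subquotient of `ρ`. So `ρ` is irreducible if the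
greatest common divisor of `n` and of such numbers `W` for primes in `T` is one, for example if all
slopes but one are equal.

The polynomials are not assumed to be irreducible over `ℚ_ℓ`, and nothing is assumed about their
Galois groups except that it is transitive at `p₁` (usual criteria use the degrees of the factors
over `ℚ_ℓ`; `OneHeckePolynomial` supposes that `n` is prime or that the Galois group is doubly
transitive, and `TransitiveHeckePolynomial` treats subquotients for `n` a prime power; its part (1),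
relations between averages, is the starting point here too).

Proof. The determinants of the subquotients are, up to finite order, rational powers of the
cyclotomic character (`ℓ`-adic six exponentials theorem, library `Pool.Agent.Y115`; lemma `dets` of
helper948). So the product of the Satake parameters that belong to the subquotient is
`ζ p ^ m`, `ζ` a root of unity, with the same rational number `m` for all primes. At `p₁` the average
of the slopes of the conjugates of this number shows that `m = k μ`.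
-/

set_option autoImplicit false

namespace Pool.Agent.Results.MP_fa5bba_nt.NewtonPolygons

open NumberField Polynomial Matrix

/-- `Q` is a prime ideal above the prime number `p` of the ring of all algebraic integers. -/
def PrimeOver (p : ℕ) (Q : Ideal (𝓞 (AlgebraicClosure ℚ))) : Prop :=
  Q.IsPrime ∧ (p : 𝓞 (AlgebraicClosure ℚ)) ∈ Q

/-- `g` is in the inertia group at `Q`. -/
def IsInertia (Q : Ideal (𝓞 (AlgebraicClosure ℚ))) (g : Gal(AlgebraicClosure ℚ/ℚ)) : Prop :=
  ∀ x : 𝓞 (AlgebraicClosure ℚ), g • x - x ∈ Q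

/-- `g` is an (arithmetic) Frobenius element at the prime ideal `Q` above `p`. -/
def IsFrobenius (p : ℕ) (Q : Ideal (𝓞 (AlgebraicClosure ℚ))) (g : Gal(AlgebraicClosure ℚ/ℚ)) :
    Prop := ∀ x : 𝓞 (AlgebraicClosure ℚ), g • x - x ^ p ∈ Q

variable {ℓ : ℕ} [Fact ℓ.Prime] {n : ℕ}

/-- The matrix of `g`. -/
noncomputable def mat (ρ : Gal(AlgebraicClosure ℚ/ℚ) →* GL (Fin n) (PadicAlgCl ℓ))
    (g : Gal(AlgebraicClosure ℚ/ℚ)) : Matrix (Fin n) (Fin n) (PadicAlgCl ℓ) :=
  (ρ g : GL (Fin n) (PadicAlgCl ℓ))

/-- The representation `ρ` is unramified at `p`, and the eigenvalues (with multiplicities) of every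
geometric Frobenius element at `p` correspond under `ι` to the complex numbers in `S`. -/
structure AttachedAt (ρ : Gal(AlgebraicClosure ℚ/ℚ) →* GL (Fin n) (PadicAlgCl ℓ))
    (ι : PadicAlgCl ℓ →+* ℂ) (p : ℕ) (S : Multiset ℂ) : Prop where
  unramified : ∀ Q, PrimeOver p Q → ∀ g, IsInertia Q g → ρ g = 1
  frobenius : ∀ Q, PrimeOver p Q → ∀ g, IsFrobenius p Q g → ((mat ρ g⁻¹).charpoly.map ι).roots = S

/-- `U` is a subrepresentation of `ρ`. -/
def Stable (ρ : Gal(AlgebraicClosure ℚ/ℚ) →* GL (Fin n) (PadicAlgCl ℓ))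
    (U : Submodule (PadicAlgCl ℓ) (Fin n → PadicAlgCl ℓ)) : Prop := ∀ g, ∀ x ∈ U, mat ρ g *ᵥ x ∈ U

/-- `ρ` is irreducible. -/
def Irreducible (ρ : Gal(AlgebraicClosure ℚ/ℚ) →* GL (Fin n) (PadicAlgCl ℓ)) : Prop :=
  0 < n ∧ ∀ U, Stable ρ U → U = ⊥ ∨ U = ⊤

/-- The slope of the complex number `z` for the identification `ν` of the algebraic closure of `ℚ_p`
with `ℂ`: the `p`-adic valuation of the number corresponding to `z`, the slope of `p` being one. -/
noncomputable def slope {p : ℕ} [Fact p.Prime] (ν : PadicAlgCl p ≃+* ℂ) (z : ℂ) : ℝ :=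
  -Real.logb p ‖ν.symm z‖

/-- The members of `B` are balanced: the sum of their slopes is `|B| μ` for all identifications of
the algebraic closure of `ℚ_p` with `ℂ`, and the product of their absolute values is
`p ^ (|B| μ)`. -/
def IsBalanced (p : ℕ) (μ : ℝ) (B : Multiset ℂ) : Prop :=
  (∀ (_ : Fact p.Prime) (ν : PadicAlgCl p ≃+* ℂ),
    (B.map (slope ν)).sum = Multiset.card B * μ) ∧
  (B.map norm).prod = (p : ℝ) ^ (Multiset.card B * μ)

/-- The automorphisms of `ℂ` which map the finite set `Ω` to itself act transitively on `Ω`. -/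
def IsTransitive (Ω : Finset ℂ) : Prop :=
  ∀ x ∈ Ω, ∀ y ∈ Ω, ∃ σ : ℂ ≃+* ℂ, (∀ z ∈ Ω, σ z ∈ Ω) ∧ σ x = y

/-- Either all members of `S` have the absolute value `p ^ μ`, or `S` is a finite set of different
numbers which are permuted transitively by automorphisms of `ℂ`, and `μ` is the average of
their slopes for some identification of the algebraic closure of `ℚ_p` with `ℂ`. -/
def IsMean (p : ℕ) (μ : ℝ) (S : Multiset ℂ) : Prop :=
  (∀ z ∈ S, ‖z‖ = (p : ℝ) ^ μ) ∨
  ((∃ Ω : Finset ℂ, S = Ω.val ∧ IsTransitive Ω) ∧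
    ∃ (_ : Fact p.Prime) (ν : PadicAlgCl p ≃+* ℂ), (S.map (slope ν)).sum = Multiset.card S * μ)

/-- The slopes of the members `z` of `S`, for some identification, are `b w + c` with real numbers
`b ≠ 0` and `c` and natural numbers `w = w(z)` with the sum `W`. -/
def HasSlopes (p W : ℕ) (S : Multiset ℂ) : Prop :=
  ∃ (_ : Fact p.Prime) (ν : PadicAlgCl p ≃+* ℂ) (b c : ℝ) (w : ℂ → ℕ), b ≠ 0 ∧
    (∀ z ∈ S, slope ν z = b * w z + c) ∧ (S.map w).sum = W

/-- **Irreducibility from Newton polygons.** Let complex numbers `S p` be given for the primes `p` (in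
the application the eigenvalues of the Satake parameters `a_σ`, `σ = π_p ⊗ |det|^((1-n)/2)`, of an
algebraic cuspidal automorphic representation `π` of `GL_n`), algebraic for the `p` in a set `T` of at
least three primes `≠ ℓ`. Let `ρ` be continuous and attached to `S` at the primes in `T`. Suppose
that `S p₁` has the mean `μ` for one prime `p₁` in `T`. -/
theorem result (ℓ : ℕ) [Fact ℓ.Prime] {n : ℕ} (hn : 0 < n) (S : ℕ → Multiset ℂ) (T : Set ℕ)
    (hT3 : 3 ≤ T.encard) (hT : ∀ p ∈ T, p.Prime ∧ p ≠ ℓ)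
    (halg : ∀ p ∈ T, ∀ a ∈ S p, IsAlgebraic ℚ a) (ι : PadicAlgCl ℓ →+* ℂ)
    (ρ : Gal(AlgebraicClosure ℚ/ℚ) →* GL (Fin n) (PadicAlgCl ℓ)) (hρ : Continuous ρ)
    (hS : ∀ p ∈ T, AttachedAt ρ ι p (S p)) (p₁ : ℕ) (hp₁ : p₁ ∈ T) (μ : ℝ)
    (hμ : IsMean p₁ μ (S p₁)) :
    -- the subquotients
    (∀ U U', Stable ρ U → Stable ρ U' → U ≤ U' → ∀ k : ℕ,
      Module.finrank (PadicAlgCl ℓ) U + k = Module.finrank (PadicAlgCl ℓ) U' →
      (∀ p ∈ T, ∃ B ≤ S p, Multiset.card B = k ∧ IsBalanced p μ B) ∧
      ∀ p ∈ T, ∀ W, HasSlopes p W (S p) → n ∣ k * W) ∧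
    -- irreducibility
    ((∀ k : ℕ, 0 < k → k < n → ∃ p ∈ T, ∀ B ≤ S p, Multiset.card B = k → ¬ IsBalanced p μ B) →
      Irreducible ρ) ∧
    ((∀ d : ℕ, d ∣ n → (∀ p ∈ T, ∀ W, HasSlopes p W (S p) → d ∣ W) → d = 1) →
      Irreducible ρ) := by
  classical
  have hgood : ∀ p ∈ T, ∀ Q : Ideal (𝓞 (AlgebraicClosure ℚ)), Q.IsPrime →
      (p : 𝓞 (AlgebraicClosure ℚ)) ∈ Q → ∀ g, IsFrobenius p Q g →
      ((mat ρ g⁻¹).charpoly.map ι).roots = S p :=
    fun p hp Q' hQ' hpQ' g hg => (hS p hp).frobenius Q' ⟨hQ', hpQ'⟩ g hg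
  -- the number of parameters, and they are not zero
  have hcard : ∀ p ∈ T, Multiset.card (S p) = n ∧ ∀ z ∈ S p, z ≠ 0 := by
    intro p hp
    obtain ⟨Q, σ, hQ, hpQ, hσ⟩ := Pool.Agent.Y115.T.exists_frobQ (hT p hp).1
    have hchar := hgood p hp Q hQ.isPrime hpQ σ hσ
    constructor
    · rw [← hchar, ← (IsAlgClosed.splits _).natDegree_eq_card_roots, Polynomial.natDegree_map,
        Matrix.charpoly_natDegree_eq_dim, Fintype.card_fin]
    · rw [← hchar]
      rintro a ha rfl
      have h6 := (mem_roots'.1 ha).2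
      rw [IsRoot.def, ← coeff_zero_eq_eval_zero, coeff_map] at h6
      have h7 : (mat ρ σ⁻¹).charpoly.coeff 0 = 0 := by
        rwa [map_eq_zero] at h6
      have h8 : (mat ρ σ⁻¹).det = 0 := by
        rw [Matrix.det_eq_sign_charpoly_coeff, h7, mul_zero]
      have h9 : IsUnit (mat ρ σ⁻¹).det := (Matrix.isUnit_iff_isUnit_det _).1 (ρ σ⁻¹).isUnit
      rw [h8] at h9
      exact not_isUnit_zero h9
  have hsl : ∀ {p : ℕ} [Fact p.Prime] (ν : PadicAlgCl p ≃+* ℂ),
      (slope ν : ℂ → ℝ) = Pool.Agent.Run7.h479.NP.slope ν := fun ν => rfl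
  -- the subquotients
  have hbal : ∀ U U', Stable ρ U → Stable ρ U' → U ≤ U' → ∀ k : ℕ,
      Module.finrank (PadicAlgCl ℓ) U + k = Module.finrank (PadicAlgCl ℓ) U' →
      ∀ p ∈ T, ∃ B ≤ S p, Multiset.card B = k ∧ IsBalanced p μ B := by
    intro U U' hU hU' hle k hk
    obtain ⟨N, a, hN, h⟩ := Pool.Agent.Run7.h479.NP.dets ρ hρ ι T hT3 hT S hgood halg U U'
      (fun g x hx => hU g x hx) (fun g x hx => hU' g x hx) hle
    have hN0 : (N : ℝ) ≠ 0 := Nat.cast_ne_zero.2 hN.ne'
    -- the exponent
    have hm : (a : ℝ) = N * (k * μ) := by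
      obtain ⟨B, hB1, hB2, hB3⟩ := h p₁ hp₁
      have hBk : Multiset.card B = k := by omega
      have hp1 := (hT p₁ hp₁).1.one_lt
      rcases hμ with hμ | ⟨⟨Ω, hΩ, htr⟩, hF, ν, hν⟩
      · have h1 := Pool.Agent.Run7.h479.NP.norms_of_rel hp1 hN hB3
        have h2 : (B.map norm).prod = ((p₁ : ℝ) ^ μ) ^ k := by
          rw [Multiset.map_congr rfl (fun z hz => hμ z (Multiset.mem_of_le hB1 hz)),
            Multiset.map_const', Multiset.prod_replicate, hBk]
        have hp0 : (0 : ℝ) < p₁ := by exact_mod_cast (by omega : 0 < p₁)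
        have hp1' : (1 : ℝ) < p₁ := by exact_mod_cast hp1
        rw [h2, ← Real.rpow_natCast, ← Real.rpow_mul hp0.le] at h1
        have h3 : μ * k = (a : ℝ) / N := by
          have h4 := congrArg (Real.logb p₁) h1
          rwa [Real.logb_rpow hp0 hp1'.ne', Real.logb_rpow hp0 hp1'.ne'] at h4
        rw [mul_comm (k : ℝ), h3, mul_div_cancel₀ _ hN0]
      · have h1 := Pool.Agent.Run7.h479.NP.mean_of_rel ν (Ω := Ω)
          (fun z hz => (hcard p₁ hp₁).2 z (by rw [hΩ]; exact hz)) htr (by rw [← hΩ]; exact hB1) hB3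
        have h2 : ∑ z ∈ Ω, Pool.Agent.Run7.h479.NP.slope ν z = Ω.card * μ := by
          have h3 := hν
          rw [hΩ, hsl] at h3
          exact h3
        have h4 : Ω.card = n := by
          rw [← (hcard p₁ hp₁).1, hΩ]
          rfl
        have hn0 : (n : ℝ) ≠ 0 := Nat.cast_ne_zero.2 hn.ne'
        rw [h2, h4, hBk] at h1
        apply mul_left_cancel₀ hn0
        rw [h1]
        ring
    intro p hp
    obtain ⟨B, hB1, hB2, hB3⟩ := h p hp
    have hBk : Multiset.card B = k := by omega
    refine ⟨B, hB1, hBk, fun hF ν => ?_, ?_⟩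
    · have h1 := Pool.Agent.Run7.h479.NP.slopes_of_rel ν
        (fun z hz => (hcard p hp).2 z (Multiset.mem_of_le hB1 hz)) hB3
      rw [hsl, hBk]
      apply mul_left_cancel₀ hN0
      rw [h1, hm]
    · rw [Pool.Agent.Run7.h479.NP.norms_of_rel (hT p hp).1.one_lt hN hB3, hBk, hm,
        mul_div_cancel_left₀ _ hN0]
  have hbot : Stable ρ ⊥ := by
    intro g x hx
    rw [Submodule.mem_bot] at hx ⊢
    rw [hx, mulVec_zero]
  have htop : Stable ρ ⊤ := fun g x _ => Submodule.mem_top
  have hdvd : ∀ U U', Stable ρ U → Stable ρ U' → U ≤ U' → ∀ k : ℕ,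
      Module.finrank (PadicAlgCl ℓ) U + k = Module.finrank (PadicAlgCl ℓ) U' →
      ∀ p ∈ T, ∀ W, HasSlopes p W (S p) → n ∣ k * W := by
    intro U U' hU hU' hle k hk p hp W hW
    obtain ⟨hF, ν, b, c, w, hb, hw, hsum⟩ := hW
    obtain ⟨B, hB1, hB2, hB3, -⟩ := hbal U U' hU hU' hle k hk p hp
    obtain ⟨C, hC1, hC2, hC3, -⟩ := hbal ⊥ ⊤ hbot htop bot_le n (by
      rw [finrank_bot, finrank_top, Module.finrank_fin_fun, zero_add]) p hp
    have hCS : C = S p := Multiset.eq_of_le_of_card_le hC1 (by rw [hC2, (hcard p hp).1])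
    have hlin : ∀ D : Multiset ℂ, D ≤ S p → (D.map (slope ν)).sum =
        b * ((D.map w).sum : ℕ) + Multiset.card D * c := by
      intro D hD
      induction D using Multiset.induction_on with
      | empty => simp
      | cons z D ih =>
        have hz : z ∈ S p := Multiset.mem_of_le hD (Multiset.mem_cons_self z D)
        rw [Multiset.map_cons, Multiset.sum_cons, ih (le_trans (Multiset.le_cons_self D z) hD),
          hw z hz, Multiset.map_cons, Multiset.sum_cons, Multiset.card_cons]
        push_cast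
        ring
    have h1 := hB3 hF ν
    have h2 := hC3 hF ν
    rw [hlin B hB1, hB2] at h1
    rw [hCS, hlin (S p) le_rfl, hsum, (hcard p hp).1] at h2
    have h3 : b * ((n : ℝ) * ((B.map w).sum : ℕ)) = b * ((k : ℝ) * W) := by
      linear_combination (n : ℝ) * h1 - (k : ℝ) * h2
    have h4 : (n : ℝ) * ((B.map w).sum : ℕ) = (k : ℝ) * W := mul_left_cancel₀ hb h3
    have h5 : n * (B.map w).sum = k * W := by exact_mod_cast h4
    exact ⟨_, h5.symm⟩
  refine ⟨fun U U' hU hU' hle k hk => ⟨hbal U U' hU hU' hle k hk, hdvd U U' hU hU' hle k hk⟩,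
    fun h => ⟨hn, fun U hU => ?_⟩, fun h => ⟨hn, fun U hU => ?_⟩⟩
  · by_contra hcon
    push Not at hcon
    have h3 : Module.finrank (PadicAlgCl ℓ) U ≠ 0 := fun h' =>
      hcon.1 (Submodule.finrank_eq_zero.1 h')
    have h4 : Module.finrank (PadicAlgCl ℓ) U < n := by
      have := Submodule.finrank_lt hcon.2
      rwa [Module.finrank_fin_fun] at this
    obtain ⟨p, hp, h5⟩ := h _ (Nat.pos_of_ne_zero h3) h4
    obtain ⟨B, hB1, hB2, hB3⟩ := hbal ⊥ U hbot hU bot_le _ (by rw [finrank_bot, zero_add]) p hp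
    exact h5 B hB1 hB2 hB3
  · by_contra hcon
    push Not at hcon
    have h3 : Module.finrank (PadicAlgCl ℓ) U ≠ 0 := fun h' =>
      hcon.1 (Submodule.finrank_eq_zero.1 h')
    have h4 : Module.finrank (PadicAlgCl ℓ) U < n := by
      have := Submodule.finrank_lt hcon.2
      rwa [Module.finrank_fin_fun] at this
    set k := Module.finrank (PadicAlgCl ℓ) U with hk
    have hkd : ∀ p ∈ T, ∀ W, HasSlopes p W (S p) → n ∣ k * W :=
      hdvd ⊥ U hbot hU bot_le k (by rw [finrank_bot, zero_add])
    have hg : 0 < Nat.gcd n k := Nat.gcd_pos_of_pos_left k hn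
    have hd := h (n / Nat.gcd n k) (Nat.div_dvd_of_dvd (Nat.gcd_dvd_left n k)) fun p hp W hW => by
      have h5 := hkd p hp W hW
      have h6 : n / Nat.gcd n k ∣ k / Nat.gcd n k * W := by
        obtain ⟨c, hc⟩ := h5
        refine ⟨c, ?_⟩
        apply Nat.eq_of_mul_eq_mul_left hg
        rw [← mul_assoc, Nat.mul_div_cancel' (Nat.gcd_dvd_right n k), ← mul_assoc,
          Nat.mul_div_cancel' (Nat.gcd_dvd_left n k), hc]
      exact (Nat.coprime_div_gcd_div_gcd hg).dvd_of_dvd_mul_left h6
    have h7 : n = Nat.gcd n k := by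
      have h8 := Nat.mul_div_cancel' (Nat.gcd_dvd_left n k)
      rw [hd, mul_one] at h8
      exact h8.symm
    have h8 : n ∣ k := by
      rw [h7]
      exact Nat.gcd_dvd_right n k
    exact absurd (Nat.le_of_dvd (Nat.pos_of_ne_zero h3) h8) (by omega)

end Pool.Agent.Results.MP_fa5bba_nt.NewtonPolygons
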