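import Mathlib
import Pool.Agent.Run7.h324.OPC.Gal

/-!
# Irreducibility for all `ℓ` from one Hecke polynomial, and the length of the attached representations

Let `π` be an algebraic cuspidal automorphic representation of `GL_n` over `ℚ`, `S p` its Satake
parameters (normalised as in the problem) and `ρ : Gal(ℚbar/ℚ) → GL_n(ℚbar_ℓ)` a continuous
representation attached to `π`.  All that is used of `π` is that the Satake parameters are algebraic at
three primes.  No regularity, no self-duality, no purity (Ramanujan) and no bound for the Satake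
parameters, nothing at the infinite place, nothing at `ℓ`, nothing at the ramified primes, and no
semisimplicity of `ρ` is assumed.

(1) *Length.*  Let `p ≠ ℓ` be one unramified prime, and let `r` be the number of members of some subset
of the Satake parameters at `p` which is multiplicatively independent modulo the powers of `p`.  Then all
chains of subrepresentations of `ρ` have at most `n - r` steps; so `ρ` has at most `n - r` irreducible
constituents, and it is irreducible if `r = n - 1`.

(2) *One Hecke polynomial.*  Suppose that at one unramified prime `p` the Satake parameters are distinct,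
that the automorphisms of `ℂ` which permute them act transitively on them (that is: the Hecke polynomial
is irreducible over the field generated by its coefficients), and that the quotient of some two of them is
not a root of unity.  Suppose moreover one of the following conditions on the group `G` of these
permutations (the Galois group of the Hecke polynomial over the field generated by its coefficients):

* `G` is doubly transitive, for example the alternating or the symmetric group;
* `n` is a prime number (and `G` is any transitive group);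
* more generally, the representation of `G` on the vectors with sum zero in `ℚ^n` is irreducible over `ℚ`.

Then `ρ` is irreducible, for every `ℓ ≠ p` and every continuous `ρ` attached to `π`.

Proof.  The determinant of a subrepresentation `U` is a continuous character of `Gal(ℚbar/ℚ)` with
algebraic values at three Frobenius elements, so by the `ℓ`-adic six exponentials theorem (proved in the
library `Pool.Agent.Y115`) it is, up to finite order, a rational power of the cyclotomic character.
Hence at *every* prime `p` a power of the product of the Frobenius eigenvalues on `U` is a power of `p`.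
(1) In a chain the eigenvalues on the graded pieces form disjoint parts of `S p`, each of which has this
property, so each part has a member outside of the independent set.  (2) The automorphisms of `ℂ` fix `p`;
so the space `R` of the vectors `x` in `ℚ^n` with sum zero such that a power of `∏ z_i ^ {x_i}` is a power
of `p` is stable under `G`.  If `U` is not `0` or the whole space, with the eigenvalues in the subset `A`,
then `R` contains `n 1_A - |A| 1`, which is not zero, so `R` contains all vectors with sum zero; so the
quotients `z_i / z_j` are roots of unity times rational powers of `p`, and as `G` is transitive the powers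
of `p` are trivial.
-/

set_option autoImplicit false

namespace Pool.Agent.Results.MP_fa5bba_nt.OneHeckePolynomial

open NumberField Polynomial Matrix

/-- `Q` is a prime ideal above the prime number `p` of the ring of all algebraic integers. -/
def PrimeOver (p : ℕ) (Q : Ideal (𝓞 (AlgebraicClosure ℚ))) : Prop :=
  Q.IsPrime ∧ (p : 𝓞 (AlgebraicClosure ℚ)) ∈ Q

/-- `g` is in the inertia group at `Q`. -/
def IsInertia (Q : Ideal (𝓞 (AlgebraicClosure ℚ))) (g : Gal(AlgebraicClosure ℚ/ℚ)) : Prop :=
  ∀ x : 𝓞 (AlgebraicClosure ℚ), g • x - x ∈ Q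

/-- `g` is an (arithmetic) Frobenius element at the prime ideal `Q` above `p`. -/
def IsFrobenius (p : ℕ) (Q : Ideal (𝓞 (AlgebraicClosure ℚ))) (g : Gal(AlgebraicClosure ℚ/ℚ)) :
    Prop := ∀ x : 𝓞 (AlgebraicClosure ℚ), g • x - x ^ p ∈ Q

section Galois

variable {ℓ : ℕ} [Fact ℓ.Prime] {n : ℕ}

/-- The matrix of `g`. -/
noncomputable def mat (ρ : Gal(AlgebraicClosure ℚ/ℚ) →* GL (Fin n) (PadicAlgCl ℓ))
    (g : Gal(AlgebraicClosure ℚ/ℚ)) : Matrix (Fin n) (Fin n) (PadicAlgCl ℓ) :=
  (ρ g : GL (Fin n) (PadicAlgCl ℓ))

/-- The representation `ρ` is unramified at `p`, and the eigenvalues (with multiplicities) of every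
geometric Frobenius element at `p` correspond under `ι` to the complex numbers in `S`. -/
structure AttachedAt (ρ : Gal(AlgebraicClosure ℚ/ℚ) →* GL (Fin n) (PadicAlgCl ℓ))
    (ι : PadicAlgCl ℓ →+* ℂ) (p : ℕ) (S : Multiset ℂ) : Prop where
  unramified : ∀ Q, PrimeOver p Q → ∀ g, IsInertia Q g → ρ g = 1
  frobenius : ∀ Q, PrimeOver p Q → ∀ g, IsFrobenius p Q g → ((mat ρ g⁻¹).charpoly.map ι).roots = S

/-- `U` is a subrepresentation of `ρ`. -/
def Stable (ρ : Gal(AlgebraicClosure ℚ/ℚ) →* GL (Fin n) (PadicAlgCl ℓ))
    (U : Submodule (PadicAlgCl ℓ) (Fin n → PadicAlgCl ℓ)) : Prop := ∀ g, ∀ x ∈ U, mat ρ g *ᵥ x ∈ U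

/-- `ρ` is irreducible. -/
def Irreducible (ρ : Gal(AlgebraicClosure ℚ/ℚ) →* GL (Fin n) (PadicAlgCl ℓ)) : Prop :=
  0 < n ∧ ∀ U, Stable ρ U → U = ⊥ ∨ U = ⊤

end Galois

section relations

/-- The members of `W` are multiplicatively independent modulo the powers of `p`. -/
def IndepMod (p : ℕ) (W : Finset ℂ) : Prop :=
  ∀ (x : ℂ → ℤ) (b : ℤ), ∏ w ∈ W, w ^ x w = (p : ℂ) ^ b → ∀ w ∈ W, x w = 0

/-- The permutation `τ` of `Ω` is induced by an automorphism of the field `ℂ`. -/
def Induced (Ω : Finset ℂ) (τ : Equiv.Perm Ω) : Prop := ∃ σ : ℂ ≃+* ℂ, ∀ w, (τ w : ℂ) = σ w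

/-- The permutations induced by automorphisms of `ℂ` are transitive on `Ω`. -/
def Transitive (Ω : Finset ℂ) : Prop := ∀ a b : Ω, ∃ τ, Induced Ω τ ∧ τ a = b

/-- The permutations induced by automorphisms of `ℂ` are doubly transitive on `Ω`. -/
def DoublyTransitive (Ω : Finset ℂ) : Prop :=
  ∀ a b c d : Ω, a ≠ b → c ≠ d → ∃ τ, Induced Ω τ ∧ τ a = c ∧ τ b = d

/-- The space of the functions `Ω → ℚ` with sum zero is an irreducible representation of the group of the
permutations induced by automorphisms of `ℂ`. -/
def SumZeroIrreducible (Ω : Finset ℂ) : Prop :=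
  ∀ W : Submodule ℚ (Ω → ℚ), (∀ x ∈ W, ∑ w, x w = 0) →
    (∀ τ, Induced Ω τ → ∀ x ∈ W, x ∘ τ ∈ W) → W = ⊥ ∨ ∀ x : Ω → ℚ, ∑ w, x w = 0 → x ∈ W

end relations

/-- **Length and irreducibility from the Satake parameters at one prime.**

Let complex numbers `S p` be given for the primes `p` (in the application the eigenvalues of the
Satake parameters `a_σ`, `σ = π_p ⊗ |det|^((1-n)/2)`, of an algebraic cuspidal automorphic
representation `π` of `GL_n`), algebraic for the `p` in a set `T` of at least three primes. Let `ℓ ∉ T`, and
let `ρ` be continuous and attached to `S` at the primes in `T`.  (1) A chain of `c` steps of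
subrepresentations and a subset `W` of the `S p`, `p ∈ T`, which is independent modulo the powers of `p`,
satisfy `c + |W| ≤ n`.  (2) If for one `p ∈ T` the members of `S p` are distinct, permuted transitively by
automorphisms of `ℂ`, not all equal up to roots of unity, and if the group of the permutations is doubly
transitive, or `n` is a prime number, or the vectors with sum zero are an irreducible representation over
`ℚ`, then `ρ` is irreducible. -/
theorem result (ℓ : ℕ) [Fact ℓ.Prime] {n : ℕ} (hn : 0 < n) (S : ℕ → Multiset ℂ) (T : Set ℕ)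
    (hT3 : 3 ≤ T.encard) (hT : ∀ p ∈ T, p.Prime ∧ p ≠ ℓ)
    (halg : ∀ p ∈ T, ∀ a ∈ S p, IsAlgebraic ℚ a) (ι : PadicAlgCl ℓ →+* ℂ)
    (ρ : Gal(AlgebraicClosure ℚ/ℚ) →* GL (Fin n) (PadicAlgCl ℓ)) (hρ : Continuous ρ)
    (hS : ∀ p ∈ T, AttachedAt ρ ι p (S p)) :
    (∀ p ∈ T, ∀ W : Finset ℂ, (∀ w ∈ W, w ∈ S p) → IndepMod p W →
      ∀ (c : ℕ) (V : ℕ → Submodule (PadicAlgCl ℓ) (Fin n → PadicAlgCl ℓ)),
        (∀ i ≤ c, Stable ρ (V i)) → (∀ i < c, V i < V (i + 1)) → c + W.card ≤ n) ∧
    (∀ p ∈ T, ∀ Ω : Finset ℂ, S p = Ω.val → Transitive Ω →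
      (∃ a ∈ Ω, ∃ b ∈ Ω, ∀ N : ℕ, 0 < N → a ^ N ≠ b ^ N) →
      (DoublyTransitive Ω ∨ n.Prime ∨ SumZeroIrreducible Ω) → Irreducible ρ) := by
  have hgood : ∀ p ∈ T, ∀ Q : Ideal (𝓞 (AlgebraicClosure ℚ)), Q.IsPrime →
      (p : 𝓞 (AlgebraicClosure ℚ)) ∈ Q → ∀ g, IsFrobenius p Q g →
      ((mat ρ g⁻¹).charpoly.map ι).roots = S p :=
    fun p hp Q' hQ' hpQ' g hg => (hS p hp).frobenius Q' ⟨hQ', hpQ'⟩ g hg
  refine ⟨fun p hp W hW hind c V hV hlt => ?_, fun p hp Ω hΩ htr hrat hG => ⟨hn, fun U hU => ?_⟩⟩
  · exact Pool.Agent.Run7.h324.OPC.length_bound ρ hρ ι T hT3 hT S hgood halg p hp W hW hind c V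
      (fun i hi g x hx => hV i hi g x hx) hlt
  · refine Pool.Agent.Run7.h324.OPC.irr_of_one ρ hρ ι T hT3 hT S hgood halg p hp Ω hΩ htr hrat ?_ U
      (fun g x hx => hU g x hx)
    rcases hG with h | h | h
    · exact Or.inr (Or.inl h)
    · exact Or.inr (Or.inr h)
    · exact Or.inl h

end Pool.Agent.Results.MP_fa5bba_nt.OneHeckePolynomial
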