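import Pool.Agent.Run7.h55.FG.Field

/-!
# Irreducibility of Galois representations and partial twists

Let `F` be a number field, `S` a finite set of primes of `F` (or a set of density zero) which contains the primes above
`ℓ`, and `k = ℚ̄_ℓ` with an isomorphism with `ℂ` (the theorem holds for every algebraically closed Hausdorff topological
field of characteristic zero). The structure `Cuspidals` describes the class of the algebraic cuspidal automorphic
representations `π` of the groups `GL_m(𝔸_F)`, `m ≥ 1`, which are unramified outside `S` and have an attached Galois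
representation; what we use are the Satake parameters (in Clozel's normalisation, moved to `k`, and inverted if
`IsFrob`, which stands for arithmetic Frobenius elements, is used for them), the twists by a group `X` of characters (for
example the characters of finite order, or all characters which come from algebraic Hecke characters), and the theorem of
Jacquet and Shalika: an isobaric sum is determined by its Satake parameters outside `S`. The representations of the
absolute Galois group `GK F` are the actual continuous homomorphisms to `GL_N(k)`. All of them are semisimple and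
unramified outside `S`, with semisimple Frobenius elements (`IsRep`). `R` is *automorphic* if it is attached to an isobaric
sum of cuspidal representations of the class.

Let `E` be a set of characters in `X` such that for all `v ∉ S` and all `c` there are only finitely many `χ ∈ E` with
`χ(Frob_v) = c`. Example: the characters of finite order of the cyclotomic `ℤ_ℓ`-extension, or the powers of the
cyclotomic character.

* (A) If `E` is infinite, the following are equivalent:
  (1) every representation `R` attached to a cuspidal `π` is irreducible (this is Q1, for all `n`, and the given `S`);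
  (2) if `R ⊕ R'` is automorphic, then `R` is automorphic;
  (3) if `R ⊕ R'` is automorphic, then `R ⊕ (χ ⊗ R')` is automorphic for all `χ ∈ X`;
  (4) if `R ⊕ R'` is automorphic, then `R ⊕ (χ ⊗ R')` is automorphic for infinitely many `χ ∈ E`;
  (5) if `R ⊕ R'` is attached to a CUSPIDAL representation, `R`, `R' ≠ 0`, then `R ⊕ (χ ⊗ R')` is automorphic for
  infinitely many `χ ∈ E`.
* (B) Unconditionally: if `R ⊕ R'` with `R`, `R' ≠ 0` is attached to a cuspidal representation (a counterexample to Q1),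
  then `R ⊕ (χ ⊗ R')` is automorphic only for finitely many `χ ∈ E`, and for fewer than `(12 n ^ 3 + 1) ^ n (n + 1)` members
  `χ` of every finite set `D` of characters in `X` which differ at every Frobenius element (for example powers of the
  cyclotomic character), where `n` is the dimension.
* (C) For all `R`, `R'`: both are automorphic, or `R ⊕ (χ ⊗ R')` is automorphic only for finitely many `χ ∈ E`.

So a reducible Galois representation of a cuspidal representation would give families of semisimple geometric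
representations `R ⊕ (χ ⊗ R')` which are not automorphic, for almost all `χ`; and to prove Q1 one can try to twist one
of two direct summands, for infinitely many characters of finite order.

The equivalence of (1) and (2) is well known. The new point is the passage from infinitely many (or a fixed number of)
partial twists to the summands. Proof: `n`-dimensional automorphic members `R ⊕ (χ ⊗ R')` are given by multisets
`C(χ)` of cuspidal representations. The expansion of a vanishing determinant gives for each triple of members an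
identity between isobaric sums of twists of the `C(χ)`; by Jacquet and Shalika two constituents of different terms
coincide, and by a count a cuspidal representation occurs in infinitely many of the `C(χ)`, or of the `χ⁻¹ ⊗ C(χ)`. Then its
Satake parameters are contained in the Frobenius eigenvalues of `R`, or of `R'`; remove them and use induction.
(1) implies (2) by Chebotarev's theorem and the independence of characters, (5) implies (1) since a single cuspidal
representation is not the isobaric sum of two nonempty sets of cuspidal representations.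
-/

set_option autoImplicit false
set_option linter.unusedSectionVars false

namespace Pool.Agent.Results.MP_fa5bba_nt.PartialTwists

open Matrix Filter Topology NumberField IsDedekindDomain Run7.h55.FG
open Pool.Agent.W401.Cheb

variable {F : Type} [Field F] [NumberField F] {k : Type} [Field k] [TopologicalSpace k]

/-- the eigenvalues of `R σ` -/
noncomputable def eig {N : ℕ} (R : GK F →* GL (Fin N) k) (σ : GK F) : Multiset k :=
  (R σ : Matrix (Fin N) (Fin N) k).charpoly.roots

/-- `R` is a continuous semisimple representation (every stable subspace has a stable complement), unramified outside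
`S`, and the images of the Frobenius elements are semisimple. -/
structure IsRep (S : Set (HeightOneSpectrum (𝓞 F))) {N : ℕ} (R : GK F →* GL (Fin N) k) : Prop where
  continuous : Continuous fun x => (R x : Matrix (Fin N) (Fin N) k)
  semisimple : ∀ W : Submodule k (Fin N → k), (∀ g, ∀ w ∈ W, (R g : Matrix (Fin N) (Fin N) k) *ᵥ w ∈ W) →
    ∃ W' : Submodule k (Fin N → k), (∀ g, ∀ w ∈ W', (R g : Matrix (Fin N) (Fin N) k) *ᵥ w ∈ W') ∧ IsCompl W W'
  unramified : ∀ v ∉ S, ∀ τ, IsInert v τ → R τ = 1
  frobenius : ∀ v ∉ S, ∀ σ, IsFrob v σ →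
    Module.End.IsSemisimple (Matrix.toLin' (R σ : Matrix (Fin N) (Fin N) k))

/-- `R` is irreducible -/
def IsIrreducible {N : ℕ} (R : GK F →* GL (Fin N) k) : Prop :=
  0 < N ∧ ∀ W : Submodule k (Fin N → k), (∀ g, ∀ w ∈ W, (R g : Matrix (Fin N) (Fin N) k) *ᵥ w ∈ W) → W = ⊥ ∨ W = ⊤

/-- **Automorphic data.** -/
structure Cuspidals (F : Type) [Field F] [NumberField F] (k : Type) [Field k] [TopologicalSpace k]
    (S : Set (HeightOneSpectrum (𝓞 F))) where
  /-- a group of algebraic Hecke characters, unramified outside `S` -/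
  X : Type
  [group : CommGroup X]
  /-- the Galois character which belongs to a Hecke character -/
  character : X → GK F →* kˣ
  character_one : ∀ σ, character 1 σ = 1
  character_mul : ∀ χ η σ, character (χ * η) σ = character χ σ * character η σ
  character_unramified : ∀ χ, ∀ v ∉ S, ∀ τ, IsInert v τ → character χ τ = 1
  /-- the algebraic cuspidal automorphic representations of `GL_m(𝔸_F)`, `m ≥ 1`, which are unramified outside `S` and have
  an attached Galois representation -/
  Cusp : Type
  /-- the number `m` -/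
  degree : Cusp → ℕ
  degree_pos : ∀ π, 0 < degree π
  /-- the Satake parameter of `π_v ⊗ |det|^((1-m)/2)` (or its inverse, for arithmetic Frobenius elements) -/
  satake : Cusp → HeightOneSpectrum (𝓞 F) → Multiset kˣ
  card_satake : ∀ π, ∀ v ∉ S, Multiset.card (satake π v) = degree π
  /-- the twist by a Hecke character -/
  twist : X → Cusp → Cusp
  satake_twist : ∀ χ π, ∀ v ∉ S, ∀ σ, IsFrob v σ →
    satake (twist χ π) v = (satake π v).map fun a => character χ σ * a
  /-- Jacquet and Shalika -/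
  isobaric : ∀ C D : Multiset Cusp,
    (∀ v ∉ S, (C.map fun π => satake π v).sum = (D.map fun π => satake π v).sum) → C = D
  /-- there is an attached representation -/
  galois : ∀ π, ∃ (N : ℕ) (R : GK F →* GL (Fin N) k), IsRep S R ∧
    ∀ v ∉ S, ∀ σ, IsFrob v σ → eig R σ = (satake π v).map Units.val

attribute [instance] Cuspidals.group

section defs

variable {S : Set (HeightOneSpectrum (𝓞 F))} (𝒜 : Cuspidals F k S)

/-- `R` is attached to the cuspidal representation `π` -/
def IsAttached (π : 𝒜.Cusp) {N : ℕ} (R : GK F →* GL (Fin N) k) : Prop :=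
  IsRep S R ∧ ∀ v ∉ S, ∀ σ, IsFrob v σ → eig R σ = (𝒜.satake π v).map Units.val

/-- `R` is automorphic: attached to an isobaric sum of cuspidal representations -/
def IsAutomorphic {N : ℕ} (R : GK F →* GL (Fin N) k) : Prop :=
  ∃ C : Multiset 𝒜.Cusp, ∀ v ∉ S, ∀ σ, IsFrob v σ → eig R σ = (C.map fun π => 𝒜.satake π v).sum.map Units.val

/-- `R ⊕ (χ ⊗ R')` is automorphic -/
def SumAutomorphic {N N' : ℕ} (R : GK F →* GL (Fin N) k) (R' : GK F →* GL (Fin N') k) (χ : 𝒜.X) : Prop :=
  ∃ C : Multiset 𝒜.Cusp, ∀ v ∉ S, ∀ σ, IsFrob v σ →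
    eig R σ + (eig R' σ).map (fun a => (𝒜.character χ σ : k) * a) = (C.map fun π => 𝒜.satake π v).sum.map Units.val

/-- `R` is the direct sum of `R₁` and `R₂` (up to isomorphism; the three representations are semisimple) -/
def IsSum (S : Set (HeightOneSpectrum (𝓞 F))) {N N₁ N₂ : ℕ} (R : GK F →* GL (Fin N) k) (R₁ : GK F →* GL (Fin N₁) k)
    (R₂ : GK F →* GL (Fin N₂) k) : Prop :=
  IsRep S R₁ ∧ IsRep S R₂ ∧ ∀ g, eig R g = eig R₁ g + eig R₂ g

end defs

/-- the number of twists which is sufficient for `n`-dimensional representations, `(12 n ^ 3 + 1) ^ n (n + 1)` -/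
def numberOfTwists (n : ℕ) : ℕ := (12 * n ^ 3 + 1) ^ n * (n + 1)

section proofs

variable [IsAlgClosed k] [CharZero k] [IsTopologicalRing k] [T2Space k] {S : Set (HeightOneSpectrum (𝓞 F))}
  (𝒜 : Cuspidals F k S)

theorem val_ueig' {N : ℕ} (R : GK F →* GL (Fin N) k) (σ : GK F) : (ueig (R σ)).map Units.val = eig R σ :=
  val_ueig (R σ)

/-- the automorphic data in the form of the library -/
noncomputable def aut : Data {v : HeightOneSpectrum (𝓞 F) // v ∉ S} 𝒜.X kˣ where
  value :=
    { toFun := fun χ v => 𝒜.character χ (frb v.1)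
      map_one' := funext fun _ => 𝒜.character_one _
      map_mul' := fun _ _ => funext fun _ => 𝒜.character_mul _ _ _ }
  Rep := 𝒜.Cusp
  deg := 𝒜.degree
  deg_pos := 𝒜.degree_pos
  sat := fun π v => 𝒜.satake π v.1
  card_sat := fun π v => 𝒜.card_satake π v.1 v.2
  twist := 𝒜.twist
  sat_twist := fun χ π v => 𝒜.satake_twist χ π v.1 v.2 (frb v.1) (isFrob_frb v.1)
  isobaric := fun C D h => 𝒜.isobaric C D fun v hv => h ⟨v, hv⟩

/-- the parameters of a representation -/
noncomputable def prm {N : ℕ} (R : GK F →* GL (Fin N) k) (v : {v : HeightOneSpectrum (𝓞 F) // v ∉ S}) : Multiset kˣ :=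
  ueig (R (frb v.1))

theorem eig_frob {N : ℕ} {R : GK F →* GL (Fin N) k} (hR : IsRep S R) {v : HeightOneSpectrum (𝓞 F)} (hv : v ∉ S)
    {σ : GK F} (hσ : IsFrob v σ) : eig R σ = eig R (frb v) := by
  obtain ⟨ρ, τ, h4, h5⟩ := (Pool.Agent.W401.Frob.main F).2.1 v (frb v) σ (isFrob_frb v) hσ
  unfold eig
  rw [h5, map_mul, map_mul, map_mul, map_inv, hR.unramified v hv τ h4, mul_one, Run7.h427.PL.charpoly_conj]

theorem isAutomorphic_iff {N : ℕ} {R : GK F →* GL (Fin N) k} (hR : IsRep S R) :
    IsAutomorphic 𝒜 R ↔ Lifts (aut 𝒜) (prm R) := by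
  constructor
  · rintro ⟨C, hC⟩
    refine ⟨C, fun v => ?_⟩
    apply units_ext
    have h := hC v.1 v.2 (frb v.1) (isFrob_frb v.1)
    unfold prm
    rw [val_ueig', h]
    rfl
  · rintro ⟨C, hC⟩
    refine ⟨C, fun v hv σ hσ => ?_⟩
    have h := hC ⟨v, hv⟩
    rw [eig_frob hR hv hσ, ← val_ueig']
    exact congrArg (Multiset.map Units.val) h

/-- the two parts -/
noncomputable def pair {N N' : ℕ} (R : GK F →* GL (Fin N) k) (R' : GK F →* GL (Fin N') k) (i : Bool)
    (v : {v : HeightOneSpectrum (𝓞 F) // v ∉ S}) : Multiset kˣ := if i then prm R' v else prm R v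

/-- the two characters -/
noncomputable def tup (χ : 𝒜.X) (i : Bool) : 𝒜.X := if i then χ else 1

theorem fam_pair {N N' : ℕ} (R : GK F →* GL (Fin N) k) (R' : GK F →* GL (Fin N') k) (χ : 𝒜.X)
    (v : {v : HeightOneSpectrum (𝓞 F) // v ∉ S}) :
    fam (aut 𝒜) (pair R R') (tup 𝒜 χ) v = prm R v + (prm R' v).map fun a => 𝒜.character χ (frb v.1) * a := by
  classical
  unfold fam
  rw [Fintype.sum_bool, add_comm]
  have h1 : scale ((aut 𝒜).value (tup 𝒜 χ false) v) (pair R R' false v) = prm R v := by
    have h2 : (aut 𝒜).value (tup 𝒜 χ false) v = 1 := by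
      change (aut 𝒜).value 1 v = 1
      rw [map_one]
      rfl
    rw [h2, scale_one]
    rfl
  rw [h1]
  rfl

theorem sumAutomorphic_iff {N N' : ℕ} {R : GK F →* GL (Fin N) k}
    {R' : GK F →* GL (Fin N') k} (hR : IsRep S R) (hR' : IsRep S R') (χ : 𝒜.X) :
    SumAutomorphic 𝒜 R R' χ ↔ Lifts (aut 𝒜) (fam (aut 𝒜) (pair R R') (tup 𝒜 χ)) := by
  have hval : ∀ v : {v : HeightOneSpectrum (𝓞 F) // v ∉ S},
      (fam (aut 𝒜) (pair R R') (tup 𝒜 χ) v).map Units.val =
        eig R (frb v.1) + (eig R' (frb v.1)).map (fun a => (𝒜.character χ (frb v.1) : k) * a) := by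
    intro v
    rw [fam_pair, Multiset.map_add, Multiset.map_map]
    unfold prm
    rw [val_ueig', ← val_ueig' R' (frb v.1), Multiset.map_map]
    rfl
  constructor
  · rintro ⟨C, hC⟩
    refine ⟨C, fun v => ?_⟩
    apply units_ext
    rw [hval, hC v.1 v.2 (frb v.1) (isFrob_frb v.1)]
    rfl
  · rintro ⟨C, hC⟩
    refine ⟨C, fun v hv σ hσ => ?_⟩
    have h := hval ⟨v, hv⟩
    have hχ : 𝒜.character χ σ = 𝒜.character χ (frb v) := by
      obtain ⟨ρ, τ, h1, h2⟩ := (Pool.Agent.W401.Frob.main F).2.1 v (frb v) σ (isFrob_frb v) hσ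
      rw [h2, map_mul, map_mul, map_mul, map_inv, 𝒜.character_unramified χ v hv τ h1, mul_one, mul_comm (𝒜.character χ ρ),
        mul_inv_cancel_right]
    rw [eig_frob hR hv hσ, eig_frob hR' hv hσ, hχ, ← h, hC ⟨v, hv⟩]
    rfl

/-- the zero-one law -/
theorem few {E : Set 𝒜.X}
    (hE : ∀ v ∉ S, ∀ σ, IsFrob v σ → ∀ c : kˣ, {χ ∈ E | 𝒜.character χ σ = c}.Finite) {N N' : ℕ} {R : GK F →* GL (Fin N) k}
    {R' : GK F →* GL (Fin N') k} (hR : IsRep S R) (hR' : IsRep S R')
    (hinf : {χ ∈ E | SumAutomorphic 𝒜 R R' χ}.Infinite) : IsAutomorphic 𝒜 R ∧ IsAutomorphic 𝒜 R' := by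
  classical
  have : Infinite {χ ∈ E | SumAutomorphic 𝒜 R R' χ} := hinf.to_subtype
  have h := main_inf (aut 𝒜) (ι := {χ ∈ E | SumAutomorphic 𝒜 R R' χ}) (A := pair R R') (ψ := fun e => tup 𝒜 e.1) ?_
    (fun e => (sumAutomorphic_iff 𝒜 hR hR' e.1).1 e.2.2)
  · rw [isAutomorphic_iff 𝒜 hR, isAutomorphic_iff 𝒜 hR']
    exact ⟨h false, h true⟩
  · intro v i j hij c
    have hval : ∀ (χ : 𝒜.X) (b : Bool), (aut 𝒜).value (tup 𝒜 χ b) v = if b then 𝒜.character χ (frb v.1) else 1 := by
      intro χ b
      cases b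
      · change (aut 𝒜).value 1 v = 1
        rw [map_one]
        rfl
      · rfl
    cases i <;> cases j
    · exact absurd rfl hij
    · refine Set.Finite.of_finite_image (f := Subtype.val) ((hE v.1 v.2 (frb v.1) (isFrob_frb v.1) c⁻¹).subset ?_)
        Subtype.val_injective.injOn
      rintro _ ⟨e, he, rfl⟩
      refine ⟨e.2.1, ?_⟩
      have he' : (aut 𝒜).value (tup 𝒜 e.1 false) v / (aut 𝒜).value (tup 𝒜 e.1 true) v = c := he
      rw [hval, hval] at he'
      simp only [Bool.false_eq_true, if_false, if_true, one_div] at he'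
      rw [← he', inv_inv]
    · refine Set.Finite.of_finite_image (f := Subtype.val) ((hE v.1 v.2 (frb v.1) (isFrob_frb v.1) c).subset ?_)
        Subtype.val_injective.injOn
      rintro _ ⟨e, he, rfl⟩
      refine ⟨e.2.1, ?_⟩
      have he' : (aut 𝒜).value (tup 𝒜 e.1 true) v / (aut 𝒜).value (tup 𝒜 e.1 false) v = c := he
      rw [hval, hval] at he'
      simpa using he'
    · exact absurd rfl hij

theorem few_fin {D : Finset 𝒜.X}
    (hD : ∀ v ∉ S, ∀ σ, IsFrob v σ → ∀ χ ∈ D, ∀ χ' ∈ D, 𝒜.character χ σ = 𝒜.character χ' σ → χ = χ') {n N N' : ℕ}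
    {R : GK F →* GL (Fin N) k} {R' : GK F →* GL (Fin N') k} (hR : IsRep S R) (hR' : IsRep S R') (hn : N + N' ≤ n)
    (hc : numberOfTwists n ≤ D.card) (hall : ∀ χ ∈ D, SumAutomorphic 𝒜 R R' χ) :
    IsAutomorphic 𝒜 R ∧ IsAutomorphic 𝒜 R' := by
  classical
  have hcard : bound (Fintype.card Bool) n ≤ Fintype.card D := by
    rw [Fintype.card_coe]
    refine le_trans (le_of_eq ?_) hc
    unfold bound numberOfTwists
    have h1 : (Fintype.card Bool + 1).factorial = 6 := by simp [Nat.factorial]
    rw [h1, Fintype.card_bool]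
    congr 2
    ring
  have h := main_fin (aut 𝒜) (ι := D) (A := pair R R') (ψ := fun e => tup 𝒜 e.1) hcard (fun v => ?_) ?_
    (fun e => (sumAutomorphic_iff 𝒜 hR hR' e.1).1 (hall e.1 e.2))
  · rw [isAutomorphic_iff 𝒜 hR, isAutomorphic_iff 𝒜 hR']
    exact ⟨h false, h true⟩
  · rw [Fintype.sum_bool]
    change Multiset.card (ueig (R' (frb v.1))) + Multiset.card (ueig (R (frb v.1))) ≤ n
    rw [card_ueig, card_ueig]
    omega
  · intro v i j hij e e' he
    have hval : ∀ (χ : 𝒜.X) (b : Bool), (aut 𝒜).value (tup 𝒜 χ b) v = if b then 𝒜.character χ (frb v.1) else 1 := by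
      intro χ b
      cases b
      · change (aut 𝒜).value 1 v = 1
        rw [map_one]
        rfl
      · rfl
    apply Subtype.ext
    refine hD v.1 v.2 (frb v.1) (isFrob_frb v.1) e.1 e.2 e'.1 e'.2 ?_
    cases i <;> cases j
    · exact absurd rfl hij
    · rw [hval, hval, hval, hval] at he
      simpa using he
    · rw [hval, hval, hval, hval] at he
      simpa using he
    · exact absurd rfl hij

theorem map_split {α β : Type} (f : α → β) : ∀ (D D' : Multiset β) (C : Multiset α), C.map f = D + D' →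
    ∃ C₁ C₂, C = C₁ + C₂ ∧ C₁.map f = D ∧ C₂.map f = D' := by
  classical
  intro D D'
  induction D using Multiset.induction_on with
  | empty =>
    intro C h
    exact ⟨0, C, (zero_add C).symm, Multiset.map_zero f, by rw [h, zero_add]⟩
  | cons d D ih =>
    intro C h
    have hd : d ∈ C.map f := by
      rw [h, Multiset.cons_add]
      exact Multiset.mem_cons_self _ _
    obtain ⟨a, ha, rfl⟩ := Multiset.mem_map.1 hd
    obtain ⟨C', rfl⟩ := Multiset.exists_cons_of_mem ha
    rw [Multiset.map_cons, Multiset.cons_add] at h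
    obtain ⟨C₁, C₂, h1, h2, h3⟩ := ih C' ((Multiset.cons_inj_right _).1 h)
    exact ⟨a ::ₘ C₁, C₂, by rw [h1, Multiset.cons_add], by rw [Multiset.map_cons, h2], h3⟩

/-- representations as admissible representations of the library -/
theorem adm_of_isRep {N : ℕ} {R : GK F →* GL (Fin N) k} (hR : IsRep S R) : Adm (inr S) (frs S) R := by
  refine ⟨hR.continuous, ?_, ?_⟩
  · rintro τ ⟨v, hv, hτ⟩
    exact hR.unramified v hv τ hτ
  · rintro σ ⟨v, hv, hσ⟩
    exact hR.frobenius v hv σ hσ

theorem isRep_of_adm {N : ℕ} {R : GK F →* GL (Fin N) k} (hR : Adm (inr S) (frs S) R) (hs : Run7.h427.DS.Semis R) :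
    IsRep S R :=
  ⟨hR.cont, hs, fun v hv τ hτ => hR.triv τ ⟨v, hv, hτ⟩, fun v hv σ hσ => hR.ss σ ⟨v, hv, hσ⟩⟩

omit [IsAlgClosed k] [IsTopologicalRing k] [T2Space k] in
/-- irreducibility depends only on the character -/
theorem irr_of_trace {n N : ℕ} {ρ : GK F →* GL (Fin n) k} {σ : GK F →* GL (Fin N) k} (h : Irr ρ)
    (hσ : Run7.h427.DS.Semis σ) (ht : ∀ g, (ρ g : Matrix (Fin n) (Fin n) k).trace =
      (σ g : Matrix (Fin N) (Fin N) k).trace) : Irr σ := by
  have h1 := ht 1
  rw [map_one, map_one, Units.val_one, Units.val_one, Matrix.trace_one, Matrix.trace_one, Fintype.card_fin,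
    Fintype.card_fin] at h1
  have h2 : n = N := by exact_mod_cast h1
  subst h2
  obtain ⟨A, hA⟩ := Run7.h427.PL.exists_iso h.semis hσ ht
  refine ⟨h.1, fun W hW => ?_⟩
  have hinv : ∀ x : Fin n → k, (A : Matrix (Fin n) (Fin n) k) *ᵥ (((A⁻¹ : GL (Fin n) k) : Matrix (Fin n) (Fin n) k) *ᵥ x) =
      x := by
    intro x
    rw [Matrix.mulVec_mulVec, ← Units.val_mul, mul_inv_cancel, Units.val_one, Matrix.one_mulVec]
  have hst : Run7.h427.DT.Stab ρ (W.comap (Matrix.toLin' (A : Matrix (Fin n) (Fin n) k))) := by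
    intro g w hw
    rw [Submodule.mem_comap, Matrix.toLin'_apply] at hw ⊢
    have h3 := hW g _ hw
    rw [hA, Matrix.mulVec_mulVec, ← Units.val_mul, inv_mul_cancel_right, Units.val_mul, ← Matrix.mulVec_mulVec] at h3
    exact h3
  rcases h.2 _ hst with h3 | h3
  · left
    rw [eq_bot_iff]
    intro x hx
    have h4 : (((A⁻¹ : GL (Fin n) k) : Matrix (Fin n) (Fin n) k) *ᵥ x) ∈
        W.comap (Matrix.toLin' (A : Matrix (Fin n) (Fin n) k)) := by
      rw [Submodule.mem_comap, Matrix.toLin'_apply, hinv]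
      exact hx
    rw [h3, Submodule.mem_bot] at h4
    rw [Submodule.mem_bot, ← hinv x, h4, Matrix.mulVec_zero]
  · right
    rw [eq_top_iff]
    intro x _
    have h4 : (((A⁻¹ : GL (Fin n) k) : Matrix (Fin n) (Fin n) k) *ᵥ x) ∈
        W.comap (Matrix.toLin' (A : Matrix (Fin n) (Fin n) k)) := by
      rw [h3]
      exact Submodule.mem_top
    rw [Submodule.mem_comap, Matrix.toLin'_apply, hinv] at h4
    exact h4

/-- one implies two -/
theorem summands (hS : Tendsto (dens fun v => v ∈ S) atTop (𝓝 0))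
    (h1 : ∀ (π : 𝒜.Cusp) (N : ℕ) (R : GK F →* GL (Fin N) k), IsAttached 𝒜 π R → IsIrreducible R)
    {N N' : ℕ} {R : GK F →* GL (Fin N) k} {R' : GK F →* GL (Fin N') k} (hR : IsRep S R) (hR' : IsRep S R')
    (h : SumAutomorphic 𝒜 R R' 1) : IsAutomorphic 𝒜 R := by
  classical
  obtain ⟨C, hC⟩ := (sumAutomorphic_iff 𝒜 hR hR' 1).1 h
  set 𝒢 := dat (inr S) (frs S) (chs S) (dense_chs (k := k) hS) with h𝒢
  -- the irreducible character of a cuspidal representation
  have hf : ∀ π : (aut 𝒜).Rep, ∃ f : 𝒢.Rep, ∀ v, 𝒢.sat f v = (aut 𝒜).sat π v := by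
    intro π
    obtain ⟨n, ρ, hρ, hρ'⟩ := 𝒜.galois π
    have hirr : Irr ρ := h1 π n ρ ⟨hρ, hρ'⟩
    let f : Chr (inr S) (frs S) k := ⟨fun g => (ρ g : Matrix (Fin n) (Fin n) k).trace, n, ρ, hirr, adm_of_isRep hρ,
      fun _ => rfl⟩
    refine ⟨f, fun v => ?_⟩
    change ueig (f.ρ (frb v.1)) = 𝒜.satake π v.1
    have h2 : ueig (f.ρ (frb v.1)) = ueig (ρ (frb v.1)) :=
      ueig_congr (charpoly_eq f.irr.semis hirr.semis (fun g => f.trace g) (frb v.1))
    rw [h2]
    apply units_ext
    rw [val_ueig', hρ' v.1 v.2 (frb v.1) (isFrob_frb v.1)]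
  choose f hf using hf
  obtain ⟨D, hD⟩ := lifts_of_hasRep (I := inr S) (Fr := frs S) (dense_chs (k := k) hS) (T := fun v => prm R v)
    ⟨N, R, adm_of_isRep hR, fun _ => rfl⟩
  obtain ⟨D', hD'⟩ := lifts_of_hasRep (I := inr S) (Fr := frs S) (dense_chs (k := k) hS) (T := fun v => prm R' v)
    ⟨N', R', adm_of_isRep hR', fun _ => rfl⟩
  have hCf : C.map f = D + D' := by
    refine 𝒢.isobaric _ _ fun v => ?_
    change param 𝒢 (C.map f) v = param 𝒢 (D + D') v
    rw [param_add, ← hD, ← hD']
    have h2 := hC v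
    rw [fam_pair] at h2
    have h3 : (prm R' v).map (fun a => 𝒜.character 1 (frb v.1) * a) = prm R' v := by
      have : (fun a => 𝒜.character 1 (frb v.1) * a) = (id : kˣ → kˣ) := by
        funext a
        rw [𝒜.character_one, one_mul]
        rfl
      rw [this, Multiset.map_id]
    rw [h3] at h2
    rw [h2]
    unfold param
    rw [Multiset.map_map]
    congr 1
    refine Multiset.map_congr rfl fun π _ => ?_
    exact hf π v
  obtain ⟨C₁, C₂, -, h5, -⟩ := map_split f D D' C hCf
  rw [isAutomorphic_iff 𝒜 hR]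
  refine ⟨C₁, fun v => ?_⟩
  rw [show prm R v = param 𝒢 D v from hD v, ← h5]
  unfold param
  rw [Multiset.map_map]
  congr 1
  refine Multiset.map_congr rfl fun π _ => ?_
  exact hf π v

/-- no proper decomposition of a cuspidal representation -/
theorem not_both {π : 𝒜.Cusp} {N N₁ N₂ : ℕ}
    {R : GK F →* GL (Fin N) k} {R₁ : GK F →* GL (Fin N₁) k} {R₂ : GK F →* GL (Fin N₂) k} (hπ : IsAttached 𝒜 π R)
    (h₁ : 0 < N₁) (h₂ : 0 < N₂) (hs : IsSum S R R₁ R₂) (ha : IsAutomorphic 𝒜 R₁ ∧ IsAutomorphic 𝒜 R₂) : False := by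
  obtain ⟨hR₁, hR₂, hsum⟩ := hs
  obtain ⟨C₁, hC₁⟩ := (isAutomorphic_iff 𝒜 hR₁).1 ha.1
  obtain ⟨C₂, hC₂⟩ := (isAutomorphic_iff 𝒜 hR₂).1 ha.2
  let π' : (aut 𝒜).Rep := π
  have h1 : ({π'} : Multiset (aut 𝒜).Rep) = C₁ + C₂ := by
    refine (aut 𝒜).isobaric _ _ fun v => ?_
    change param (aut 𝒜) {π'} v = param (aut 𝒜) (C₁ + C₂) v
    have h2 : param (aut 𝒜) (C₁ + C₂) v = prm R₁ v + prm R₂ v := by
      unfold param
      rw [Multiset.map_add, Multiset.sum_add]
      rw [show prm R₁ v = _ from hC₁ v, show prm R₂ v = _ from hC₂ v]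
      rfl
    rw [h2]
    unfold param
    rw [Multiset.map_singleton, Multiset.sum_singleton]
    apply units_ext
    rw [Multiset.map_add]
    unfold prm
    rw [val_ueig', val_ueig', ← hsum]
    exact (hπ.2 v.1 v.2 (frb v.1) (isFrob_frb v.1)).symm
  have h3 := congrArg Multiset.card h1
  rw [Multiset.card_singleton, Multiset.card_add] at h3
  -- there is a place
  have hP : ∃ v : {v : HeightOneSpectrum (𝓞 F) // v ∉ S}, True := by
    by_contra hno
    push Not at hno
    have h4 : ({π} : Multiset 𝒜.Cusp) = 0 := 𝒜.isobaric _ _ fun v hv => (hno ⟨v, hv⟩).elim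
    exact Multiset.singleton_ne_zero π h4
  obtain ⟨v, -⟩ := hP
  have hne : ∀ {M : ℕ} {Q : GK F →* GL (Fin M) k} {C : Multiset (aut 𝒜).Rep}, 0 < M → prm Q v = param (aut 𝒜) C v →
      0 < Multiset.card C := by
    intro M Q C hM hQ
    rw [Nat.pos_iff_ne_zero]
    intro h0
    rw [Multiset.card_eq_zero] at h0
    subst h0
    have h5 := congrArg Multiset.card hQ
    have h6 : Multiset.card (prm Q v) = M := card_ueig _
    rw [h6] at h5
    have h7 : param (aut 𝒜) 0 v = 0 := rfl
    rw [h7, Multiset.card_zero] at h5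
    omega
  have h8 := hne h₁ (hC₁ v)
  have h9 := hne h₂ (hC₂ v)
  omega

end proofs

/-- (1) Q1: the representations attached to cuspidal representations are irreducible. -/
def Irreducibility {S : Set (HeightOneSpectrum (𝓞 F))} (𝒜 : Cuspidals F k S) : Prop :=
  ∀ (π : 𝒜.Cusp) (N : ℕ) (R : GK F →* GL (Fin N) k), IsAttached 𝒜 π R → IsIrreducible R

/-- (2) Direct summands of automorphic representations are automorphic. -/
def Summands {S : Set (HeightOneSpectrum (𝓞 F))} (𝒜 : Cuspidals F k S) : Prop :=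
  ∀ (N N' : ℕ) (R : GK F →* GL (Fin N) k) (R' : GK F →* GL (Fin N') k), IsRep S R → IsRep S R' →
    SumAutomorphic 𝒜 R R' 1 → IsAutomorphic 𝒜 R

/-- (3) All partial twists of automorphic representations are automorphic. -/
def AllTwists {S : Set (HeightOneSpectrum (𝓞 F))} (𝒜 : Cuspidals F k S) : Prop :=
  ∀ (N N' : ℕ) (R : GK F →* GL (Fin N) k) (R' : GK F →* GL (Fin N') k), IsRep S R → IsRep S R' →
    SumAutomorphic 𝒜 R R' 1 → ∀ χ : 𝒜.X, SumAutomorphic 𝒜 R R' χ

/-- (4) Infinitely many partial twists by characters in `E` are automorphic. -/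
def ManyTwists {S : Set (HeightOneSpectrum (𝓞 F))} (𝒜 : Cuspidals F k S)
    (E : Set 𝒜.X) : Prop :=
  ∀ (N N' : ℕ) (R : GK F →* GL (Fin N) k) (R' : GK F →* GL (Fin N') k), IsRep S R → IsRep S R' →
    SumAutomorphic 𝒜 R R' 1 → {χ ∈ E | SumAutomorphic 𝒜 R R' χ}.Infinite

/-- (5) The same, only for the decompositions of the representations attached to cuspidal representations. -/
def ManyTwistsCuspidal {S : Set (HeightOneSpectrum (𝓞 F))} (𝒜 : Cuspidals F k S)
    (E : Set 𝒜.X) : Prop :=
  ∀ (π : 𝒜.Cusp) (N N₁ N₂ : ℕ) (R : GK F →* GL (Fin N) k) (R₁ : GK F →* GL (Fin N₁) k)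
    (R₂ : GK F →* GL (Fin N₂) k), IsAttached 𝒜 π R → 0 < N₁ → 0 < N₂ → IsSum S R R₁ R₂ →
    {χ ∈ E | SumAutomorphic 𝒜 R₁ R₂ χ}.Infinite

/-- The members of `D` have different values at each Frobenius element. -/
def Separated {S : Set (HeightOneSpectrum (𝓞 F))} (𝒜 : Cuspidals F k S) (D : Finset 𝒜.X) : Prop :=
  ∀ v ∉ S, ∀ σ, IsFrob v σ → ∀ χ ∈ D, ∀ χ' ∈ D, 𝒜.character χ σ = 𝒜.character χ' σ → χ = χ'

/-- (B) The partial twists of a reducible representation attached to a cuspidal representation. -/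
def FewTwistsCuspidal {S : Set (HeightOneSpectrum (𝓞 F))} (𝒜 : Cuspidals F k S)
    (E : Set 𝒜.X) : Prop :=
  ∀ (π : 𝒜.Cusp) (N N₁ N₂ : ℕ) (R : GK F →* GL (Fin N) k) (R₁ : GK F →* GL (Fin N₁) k)
    (R₂ : GK F →* GL (Fin N₂) k), IsAttached 𝒜 π R → 0 < N₁ → 0 < N₂ → IsSum S R R₁ R₂ →
    {χ ∈ E | SumAutomorphic 𝒜 R₁ R₂ χ}.Finite ∧
    ∀ D : Finset 𝒜.X, Separated 𝒜 D → (∀ χ ∈ D, SumAutomorphic 𝒜 R₁ R₂ χ) → D.card < numberOfTwists N

/-- (C) The zero-one law. -/
def ZeroOneLaw {S : Set (HeightOneSpectrum (𝓞 F))} (𝒜 : Cuspidals F k S)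
    (E : Set 𝒜.X) : Prop :=
  ∀ (N N' : ℕ) (R : GK F →* GL (Fin N) k) (R' : GK F →* GL (Fin N') k), IsRep S R → IsRep S R' →
    (IsAutomorphic 𝒜 R ∧ IsAutomorphic 𝒜 R') ∨ {χ ∈ E | SumAutomorphic 𝒜 R R' χ}.Finite

/-- Only finitely many characters in `E` have a given value at a given Frobenius element. -/
def IsThin {S : Set (HeightOneSpectrum (𝓞 F))} (𝒜 : Cuspidals F k S) (E : Set 𝒜.X) : Prop :=
  ∀ v ∉ S, ∀ σ, IsFrob v σ → ∀ c : kˣ, {χ ∈ E | 𝒜.character χ σ = c}.Finite

/-- **Irreducibility and partial twists.** -/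
theorem result (F : Type) [Field F] [NumberField F] (k : Type) [Field k] [IsAlgClosed k] [CharZero k]
    [TopologicalSpace k] [IsTopologicalRing k] [T2Space k] (S : Set (HeightOneSpectrum (𝓞 F)))
    (hS : Tendsto (dens fun v => v ∈ S) atTop (𝓝 0)) (𝒜 : Cuspidals F k S) (E : Set 𝒜.X) (hE : IsThin 𝒜 E) :
    (E.Infinite → [Irreducibility 𝒜, Summands 𝒜, AllTwists 𝒜, ManyTwists 𝒜 E, ManyTwistsCuspidal 𝒜 E].TFAE) ∧
      FewTwistsCuspidal 𝒜 E ∧ ZeroOneLaw 𝒜 E := by
  classical
  have partC : ∀ (N N' : ℕ) (R : GK F →* GL (Fin N) k) (R' : GK F →* GL (Fin N') k), IsRep S R → IsRep S R' →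
      (IsAutomorphic 𝒜 R ∧ IsAutomorphic 𝒜 R') ∨ {χ ∈ E | SumAutomorphic 𝒜 R R' χ}.Finite := by
    intro N N' R R' hR hR'
    by_cases h : {χ ∈ E | SumAutomorphic 𝒜 R R' χ}.Finite
    · exact Or.inr h
    · exact Or.inl (few 𝒜 hE hR hR' h)
  refine ⟨fun hinf => ?_, ?_, partC⟩
  · tfae_have 1 → 2 := by
      intro h1 N N' R R' hR hR' h
      exact summands 𝒜 hS h1 hR hR' h
    tfae_have 2 → 3 := by
      intro h2 N N' R R' hR hR' h χ
      have hsymm : SumAutomorphic 𝒜 R' R 1 := by
        obtain ⟨C, hC⟩ := h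
        refine ⟨C, fun v hv σ hσ => ?_⟩
        rw [← hC v hv σ hσ]
        have h3 : ∀ s : Multiset k, s.map (fun a => (𝒜.character 1 σ : k) * a) = s := by
          intro s
          have : (fun a : k => (𝒜.character 1 σ : k) * a) = id := by
            funext a
            rw [𝒜.character_one, Units.val_one, one_mul]
            rfl
          rw [this, Multiset.map_id]
        rw [h3, h3, add_comm]
      have ha := h2 N N' R R' hR hR' h
      have ha' := h2 N' N R' R hR' hR hsymm
      rw [isAutomorphic_iff 𝒜 hR] at ha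
      rw [isAutomorphic_iff 𝒜 hR'] at ha'
      rw [sumAutomorphic_iff 𝒜 hR hR' χ]
      refine lifts_fam (aut 𝒜) (fun i => ?_) _
      cases i
      · exact ha
      · exact ha'
    tfae_have 3 → 4 := by
      intro h3 N N' R R' hR hR' h
      refine hinf.mono fun χ hχ => ⟨hχ, h3 N N' R R' hR hR' h χ⟩
    tfae_have 4 → 5 := by
      intro h4 π N N₁ N₂ R R₁ R₂ hπ _ _ hs
      refine h4 N₁ N₂ R₁ R₂ hs.1 hs.2.1 ⟨{π}, fun v hv σ hσ => ?_⟩
      have h3 : (eig R₂ σ).map (fun a => (𝒜.character 1 σ : k) * a) = eig R₂ σ := by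
        have : (fun a : k => (𝒜.character 1 σ : k) * a) = id := by
          funext a
          rw [𝒜.character_one, Units.val_one, one_mul]
          rfl
        rw [this, Multiset.map_id]
      rw [h3, ← hs.2.2, hπ.2 v hv σ hσ, Multiset.map_singleton, Multiset.sum_singleton]
    tfae_have 5 → 1 := by
      intro h5 π N R hπ
      have hN : 0 < N := by
        have hP : ∃ v : {v : HeightOneSpectrum (𝓞 F) // v ∉ S}, True := by
          by_contra hno
          push Not at hno
          have h4 : ({π} : Multiset 𝒜.Cusp) = 0 := 𝒜.isobaric _ _ fun v hv => (hno ⟨v, hv⟩).elim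
          exact Multiset.singleton_ne_zero π h4
        obtain ⟨v, -⟩ := hP
        have h6 := hπ.2 v.1 v.2 (frb v.1) (isFrob_frb v.1)
        rw [← val_ueig'] at h6
        have h7 := congrArg Multiset.card (units_ext h6)
        rw [card_ueig, 𝒜.card_satake π v.1 v.2] at h7
        rw [h7]
        exact 𝒜.degree_pos π
      by_contra hirr
      obtain ⟨C, hC⟩ := exists_dec N R (adm_of_isRep hπ.1)
      have htr : ∀ {M : ℕ} (Q : GK F →* GL (Fin M) k), (∀ g, (R g : Matrix (Fin N) (Fin N) k).charpoly =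
          (Q g : Matrix (Fin M) (Fin M) k).charpoly) → ∀ g, (R g : Matrix (Fin N) (Fin N) k).trace =
          (Q g : Matrix (Fin M) (Fin M) k).trace := by
        intro M Q hQ g
        rw [← sum_ueig, ← sum_ueig, ueig_congr (hQ g)]
      rcases Multiset.empty_or_exists_mem C with h0 | ⟨f, hf⟩
      · subst h0
        have h6 := hC 1
        rw [Multiset.map_zero, Multiset.prod_zero] at h6
        have h7 := Matrix.charpoly_natDegree_eq_dim (R 1 : Matrix (Fin N) (Fin N) k)
        rw [h6, Polynomial.natDegree_one, Fintype.card_fin] at h7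
        omega
      obtain ⟨C', rfl⟩ := Multiset.exists_cons_of_mem hf
      rcases Multiset.empty_or_exists_mem C' with h0 | ⟨f', hf'⟩
      · subst h0
        apply hirr
        have h6 : ∀ g, (R g : Matrix (Fin N) (Fin N) k).charpoly = (f.ρ g : Matrix (Fin f.dg) (Fin f.dg) k).charpoly := by
          intro g
          rw [hC g, Multiset.map_cons, Multiset.map_zero, Multiset.prod_cons, Multiset.prod_zero, mul_one]
        exact irr_of_trace f.irr hπ.1.semisimple fun g => (htr f.ρ h6 g).symm
      · obtain ⟨M, Q, hQ1, hQ2, hQ3, -, hQ5⟩ := exists_sum (I := inr S) (Fr := frs S) (k := k) C'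
        have hM : 0 < M := by
          rw [Nat.pos_iff_ne_zero]
          rintro rfl
          obtain ⟨J, hJ, -⟩ := (hQ5 f').2 hf'
          exact hJ (Subsingleton.elim J 0)
        have hs : IsSum S R f.ρ Q := by
          refine ⟨isRep_of_adm f.adm f.irr.semis, isRep_of_adm hQ2 hQ1, fun g => ?_⟩
          unfold eig
          rw [hC g, Multiset.map_cons, Multiset.prod_cons, ← hQ3, Polynomial.roots_mul]
          exact mul_ne_zero (Matrix.charpoly_monic _).ne_zero (Matrix.charpoly_monic _).ne_zero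
        exact not_both 𝒜 hπ f.irr.1 hM hs
          (few 𝒜 hE hs.1 hs.2.1 (h5 π N f.dg M R f.ρ Q hπ f.irr.1 hM hs))
    tfae_finish
  · intro π N N₁ N₂ R R₁ R₂ hπ h₁ h₂ hs
    refine ⟨?_, fun D hD hall => ?_⟩
    · rcases partC N₁ N₂ R₁ R₂ hs.1 hs.2.1 with h | h
      · exact absurd h fun h => not_both 𝒜 hπ h₁ h₂ hs h
      · exact h
    · by_contra hc
      push Not at hc
      have hN : N₁ + N₂ ≤ N := by
        have h3 := congrArg Multiset.card (hs.2.2 1)
        rw [← val_ueig', ← val_ueig', ← val_ueig', Multiset.card_add, Multiset.card_map, Multiset.card_map,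
          Multiset.card_map, card_ueig, card_ueig, card_ueig] at h3
        omega
      exact not_both 𝒜 hπ h₁ h₂ hs (few_fin 𝒜 hD hs.1 hs.2.1 hN hc hall)

end Pool.Agent.Results.MP_fa5bba_nt.PartialTwists
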