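import Pool.Agent.Run7.h948.OP.Gal
import Pool.Agent.Run7.h948.OP.Trans

/-!
# Subquotients of attached Galois representations, from one irreducible Satake polynomial

Let `π` be an algebraic cuspidal automorphic representation of `GL_n` over `ℚ` and
`ρ : Gal(ℚbar/ℚ) → GL_n(ℚbar_ℓ)` a continuous representation attached to `π`.  All that is assumed of
`π` is that its Satake parameters are algebraic at three primes `≠ ℓ`: nothing at the infinite place
(no regularity), no self-duality, no purity (Ramanujan), no compatible system, no semisimplicity, and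
nothing at `ℓ` or at the ramified primes.

Suppose that at one prime `p` of `T` the Satake polynomial is irreducible over a field `E`, for example the
field generated by its coefficients; its Galois group over `E` can be any transitive group.

**Theorem.**  (1) All subquotients of `ρ` have the same average weight: if `k` is the dimension of a
subquotient, then at every prime `q` of `T` some `k` of the `n` Satake parameters have the same geometric
mean as all `n` parameters, up to a root of unity.

Suppose moreover that the quotient of some two Satake parameters at `p` is not a root of unity.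

(2) If `n` is a power of a prime number `r`, then the dimensions of all subquotients of `ρ` are
divisible by `r`.  So `ρ` has at most `n / r` irreducible constituents; it is irreducible if `n = r`.

(3) For every `n` there are no subquotients of dimension `1` or `n - 1`.

(4) If `ρ` has a subquotient of dimension `k > 0`, then there is a rational number `a / N` such that every Satake
parameter at `p` is one of `k` Satake parameters with product `p ^ (a / N)` up to a root of unity.

(5) Let `n = 4`.  Then `ρ` is irreducible unless every Satake parameter `x` at `p` has a partner `y ≠ x`,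
such that the product `x y` is, up to a root of unity, the same power of `p` for all of them
(as for an essentially self-dual `π`); in this case all constituents have dimension `2` or `4`.

In each case the same `p` can be used for all `ℓ ≠ p`.  The Satake polynomial is not assumed to be
irreducible over `ℚ_ℓ`, and nothing is known about the action of Frobenius elements on the subquotients of
`ρ` other than that they permute the Satake parameters among them.
For doubly transitive Galois groups see `OneHeckePolynomial` in this folder.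

Proof.  The determinants of the subquotients are characters with algebraic Frobenius values at three primes;
by the `ℓ`-adic six exponentials theorem (proved in the library `Pool.Agent.Y115`) they are, up to
finite order, rational powers of the cyclotomic character.  Therefore a subquotient of dimension `k`
determines a set `A` of `k` Satake parameters at `p` with product `p ^ (a / N)` up to a root of unity; the
same is true for the conjugates of `A` under the Galois group `G` of the Satake polynomial, and this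
gives (4), (5) and, taking the product of all conjugates, (1).  For (2) let `R` be the space of the
functions `x` on the set `Ω` of Satake parameters, with rational values, such that `∏ z ^ {x(z)}` is a
rational power of `p` up to a root of unity.  It contains the characteristic function `1_A`, and it is
stable under a Sylow `r`-subgroup `P` of `G`, which is transitive on `Ω` because `n` is a power of `r`.
If `R` is not the space of all functions, then the integral vectors orthogonal to `R` give a nonzero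
`P`-submodule of `𝔽_r ^ Ω`, and, since `P` is an `r`-group, a nonzero fixed vector in it, that is,
a constant function.  So a function with constant value prime to `r` modulo `r` is orthogonal to
`1_A`, and `r` divides `k = |A|`.
-/

set_option autoImplicit false

namespace Pool.Agent.Results.MP_fa5bba_nt.TransitiveHeckePolynomial

open NumberField Polynomial Matrix

/-- `Q` is a prime ideal above the prime number `p` of the ring of all algebraic integers. -/
def PrimeOver (p : ℕ) (Q : Ideal (𝓞 (AlgebraicClosure ℚ))) : Prop :=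
  Q.IsPrime ∧ (p : 𝓞 (AlgebraicClosure ℚ)) ∈ Q

/-- `g` is in the inertia group at `Q`. -/
def IsInertia (Q : Ideal (𝓞 (AlgebraicClosure ℚ))) (g : Gal(AlgebraicClosure ℚ/ℚ)) : Prop :=
  ∀ x : 𝓞 (AlgebraicClosure ℚ), g • x - x ∈ Q

/-- `g` is an (arithmetic) Frobenius element at the prime ideal `Q` above `p`. -/
def IsFrobenius (p : ℕ) (Q : Ideal (𝓞 (AlgebraicClosure ℚ))) (g : Gal(AlgebraicClosure ℚ/ℚ)) :
    Prop := ∀ x : 𝓞 (AlgebraicClosure ℚ), g • x - x ^ p ∈ Q

variable {ℓ : ℕ} [Fact ℓ.Prime] {n : ℕ}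

/-- The matrix of `g`. -/
noncomputable def mat (ρ : Gal(AlgebraicClosure ℚ/ℚ) →* GL (Fin n) (PadicAlgCl ℓ))
    (g : Gal(AlgebraicClosure ℚ/ℚ)) : Matrix (Fin n) (Fin n) (PadicAlgCl ℓ) :=
  (ρ g : GL (Fin n) (PadicAlgCl ℓ))

/-- The representation `ρ` is unramified at `p`, and the eigenvalues (with multiplicities) of every
geometric Frobenius element at `p` correspond under `ι` to the complex numbers in `S`. -/
structure AttachedAt (ρ : Gal(AlgebraicClosure ℚ/ℚ) →* GL (Fin n) (PadicAlgCl ℓ))
    (ι : PadicAlgCl ℓ →+* ℂ) (p : ℕ) (S : Multiset ℂ) : Prop where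
  unramified : ∀ Q, PrimeOver p Q → ∀ g, IsInertia Q g → ρ g = 1
  frobenius : ∀ Q, PrimeOver p Q → ∀ g, IsFrobenius p Q g → ((mat ρ g⁻¹).charpoly.map ι).roots = S

/-- `U` is a subrepresentation of `ρ`. -/
def Stable (ρ : Gal(AlgebraicClosure ℚ/ℚ) →* GL (Fin n) (PadicAlgCl ℓ))
    (U : Submodule (PadicAlgCl ℓ) (Fin n → PadicAlgCl ℓ)) : Prop := ∀ g, ∀ x ∈ U, mat ρ g *ᵥ x ∈ U

/-- `ρ` is irreducible. -/
def Irreducible (ρ : Gal(AlgebraicClosure ℚ/ℚ) →* GL (Fin n) (PadicAlgCl ℓ)) : Prop :=
  0 < n ∧ ∀ U, Stable ρ U → U = ⊥ ∨ U = ⊤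

/-- There is a subquotient `U' / U` of `ρ` of dimension `k`. -/
def HasSubquotient (ρ : Gal(AlgebraicClosure ℚ/ℚ) →* GL (Fin n) (PadicAlgCl ℓ)) (k : ℕ) : Prop :=
  ∃ U U', Stable ρ U ∧ Stable ρ U' ∧ U ≤ U' ∧
    Module.finrank (PadicAlgCl ℓ) U + k = Module.finrank (PadicAlgCl ℓ) U'

/-- **Subquotients of Galois representations with one irreducible Satake polynomial.**

Let complex numbers `S p` be given for the primes `p` (in the application the eigenvalues of the
Satake parameters `a_σ`, `σ = π_p ⊗ |det|^((1-n)/2)`, of an algebraic cuspidal automorphic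
representation `π` of `GL_n`), algebraic for the `p` in a set `T` of at least three primes.  Let
`ℓ ∉ T`, and let `ρ` be continuous and attached to `S` at the primes in `T`.  Suppose that for one
`p ∈ T` the family `S p` consists of the roots of a polynomial `H` which is irreducible over a field
`E`. -/
theorem result (ℓ : ℕ) [Fact ℓ.Prime] {n : ℕ} (hn : 0 < n) (S : ℕ → Multiset ℂ) (T : Set ℕ)
    (hT3 : 3 ≤ T.encard) (hT : ∀ p ∈ T, p.Prime ∧ p ≠ ℓ)
    (halg : ∀ p ∈ T, ∀ a ∈ S p, IsAlgebraic ℚ a) (ι : PadicAlgCl ℓ →+* ℂ)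
    (ρ : Gal(AlgebraicClosure ℚ/ℚ) →* GL (Fin n) (PadicAlgCl ℓ)) (hρ : Continuous ρ)
    (hS : ∀ p ∈ T, AttachedAt ρ ι p (S p))
    -- one Satake polynomial is irreducible over `E`
    (p : ℕ) (hp : p ∈ T) (E : Type) [Field E] [Algebra E ℂ] (H : E[X])
    (hH : _root_.Irreducible H) (hroots : (H.map (algebraMap E ℂ)).roots = S p) :
    -- all subquotients have the same average weight, at all primes of `T`
    (∀ k, HasSubquotient ρ k → ∃ N : ℕ, 0 < N ∧ ∀ q ∈ T, ∃ B : Multiset ℂ, B ≤ S q ∧
      Multiset.card B = k ∧ B.prod ^ (n * N) = (S q).prod ^ (k * N)) ∧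
    -- the sets of Satake parameters at `p` of a subquotient and its conjugates
    (∀ k, 0 < k → HasSubquotient ρ k → ∃ (N : ℕ) (a : ℤ), 0 < N ∧ ∀ x ∈ S p, ∃ B : Multiset ℂ,
      B ≤ S p ∧ x ∈ B ∧ Multiset.card B = k ∧ B.prod ^ N = (p : ℂ) ^ a) ∧
    -- now suppose that some quotient of Satake parameters at `p` is not a root of unity
    ((∃ x ∈ S p, ∃ y ∈ S p, ∀ N : ℕ, 0 < N → x ^ N ≠ y ^ N) →
      -- `n` a power of a prime `r`
      (∀ r m : ℕ, r.Prime → n = r ^ m → ∀ k, HasSubquotient ρ k → r ∣ k) ∧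
      -- no subquotients of dimension one or codimension one
      ¬ HasSubquotient ρ 1 ∧ ¬ HasSubquotient ρ (n - 1) ∧
      -- `n = 4`
      (n = 4 → (∀ (N : ℕ) (a : ℤ), 0 < N →
        ∃ x ∈ S p, ∀ y ∈ S p, y ≠ x → (x * y) ^ N ≠ (p : ℂ) ^ a) → Irreducible ρ)) := by
  classical
  have hgood : ∀ p ∈ T, ∀ Q : Ideal (𝓞 (AlgebraicClosure ℚ)), Q.IsPrime →
      (p : 𝓞 (AlgebraicClosure ℚ)) ∈ Q → ∀ g, IsFrobenius p Q g →
      ((mat ρ g⁻¹).charpoly.map ι).roots = S p :=
    fun p hp Q' hQ' hpQ' g hg => (hS p hp).frobenius Q' ⟨hQ', hpQ'⟩ g hg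
  have hbot : Stable ρ ⊥ := by
    intro g x hx
    rw [Submodule.mem_bot] at hx ⊢
    rw [hx, mulVec_zero]
  have htop : Stable ρ ⊤ := fun g x _ => Submodule.mem_top
  have h1 : ∀ k, HasSubquotient ρ k → ∃ (N : ℕ) (a : ℤ), 0 < N ∧ ∀ q ∈ T, ∃ B : Multiset ℂ,
      B ≤ S q ∧ Multiset.card B = k ∧ B.prod ^ N = (q : ℂ) ^ a := by
    rintro k ⟨U, U', hU, hU', hle, hk⟩
    obtain ⟨N, a, hN, h⟩ := Run7.h948.OP.dets ρ hρ ι T hT3 hT S hgood halg U U'
      (fun g x hx => hU g x hx) (fun g x hx => hU' g x hx) hle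
    refine ⟨N, a, hN, fun p hp => ?_⟩
    obtain ⟨B, hB1, hB2, hB3⟩ := h p hp
    exact ⟨B, hB1, by omega, hB3⟩
  -- the families `S q`
  have hSq : ∀ q ∈ T, Multiset.card (S q) = n ∧ ∀ a ∈ S q, a ≠ 0 := by
    intro q hq
    obtain ⟨Q, σ, hQ, hpQ, hσ⟩ := Pool.Agent.Y115.T.exists_frobQ (hT q hq).1
    have hchar := hgood q hq Q hQ.isPrime hpQ σ hσ
    refine ⟨?_, ?_⟩
    · rw [← hchar, ← (IsAlgClosed.splits _).natDegree_eq_card_roots, Polynomial.natDegree_map,
        Matrix.charpoly_natDegree_eq_dim, Fintype.card_fin]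
    · rw [← hchar]
      rintro a ha rfl
      have h6 := (mem_roots'.1 ha).2
      rw [IsRoot.def, ← coeff_zero_eq_eval_zero, coeff_map] at h6
      have h7 : (mat ρ σ⁻¹).charpoly.coeff 0 = 0 := by
        rwa [map_eq_zero] at h6
      have h8 : (mat ρ σ⁻¹).det = 0 := by
        rw [Matrix.det_eq_sign_charpoly_coeff, h7, mul_zero]
      have h9 : IsUnit (mat ρ σ⁻¹).det := (Matrix.isUnit_iff_isUnit_det _).1 (ρ σ⁻¹).isUnit
      rw [h8] at h9
      exact not_isUnit_zero h9
  have hdeg : H.natDegree = n := by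
    rw [← (hSq p hp).1, ← hroots, ← (IsAlgClosed.splits _).natDegree_eq_card_roots,
      Polynomial.natDegree_map]
  have h0 : ∀ a ∈ (H.map (algebraMap E ℂ)).roots, a ≠ 0 := by
    rw [hroots]; exact (hSq p hp).2
  have hp1 := (hT p hp).1
  -- the whole representation
  have hfull : HasSubquotient ρ n :=
    ⟨⊥, ⊤, hbot, htop, bot_le, by rw [finrank_bot, finrank_top, Module.finrank_fin_fun, zero_add]⟩
  have h2 : ∀ k, 0 < k → HasSubquotient ρ k → ∃ (N : ℕ) (a : ℤ), 0 < N ∧ ∀ x ∈ S p,
      ∃ B : Multiset ℂ, B ≤ S p ∧ x ∈ B ∧ Multiset.card B = k ∧ B.prod ^ N = (p : ℂ) ^ a := by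
    intro k hk0 hk
    obtain ⟨N, a, hN, h⟩ := h1 k hk
    obtain ⟨B, hB1, hB2, hB3⟩ := h p hp
    refine ⟨N, a, hN, fun x hx => ?_⟩
    obtain ⟨B', h3, h4, h5, h6⟩ := Run7.h948.OP.poly_cover H hH B (by rw [hroots]; exact hB1)
      (by rw [hB2]; exact hk0) N p a hB3 x (by rw [hroots]; exact hx)
    exact ⟨B', by rw [← hroots]; exact h3, h4, by rw [h5, hB2], h6⟩
  refine ⟨?_, h2, ?_⟩
  · -- average weights
    intro k hk
    obtain ⟨N, a, hN, h⟩ := h1 k hk
    obtain ⟨N₀, a₀, hN₀, h'⟩ := h1 n hfull
    have hq' : ∀ q ∈ T, (S q).prod ^ N₀ = (q : ℂ) ^ a₀ := by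
      intro q hq
      obtain ⟨B, hB1, hB2, hB3⟩ := h' q hq
      have e := Multiset.eq_of_le_of_card_le hB1 (by rw [hB2, (hSq q hq).1])
      rw [← e]; exact hB3
    obtain ⟨B, hB1, hB2, hB3⟩ := h p hp
    obtain ⟨M, hM, hMe⟩ := Run7.h948.OP.poly_avg H hH B (by rw [hroots]; exact hB1) N p a hB3
    rw [hroots, hB2, hdeg] at hMe
    have hp0 : (p : ℂ) ≠ 0 := Nat.cast_ne_zero.2 hp1.ne_zero
    -- compare the exponents at `p`
    have hexp : a₀ * (M * (k * N)) = a * (M * n) * N₀ := by
      have e1 : ((p : ℂ) ^ a₀) ^ (M * (k * N)) = (((p : ℂ) ^ a) ^ (M * n)) ^ N₀ := by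
        rw [← hMe, ← hq' p hp, ← pow_mul, ← pow_mul, mul_comm N₀]
      rw [← zpow_natCast, ← zpow_natCast, ← zpow_natCast, ← _root_.zpow_mul, ← _root_.zpow_mul, ← _root_.zpow_mul] at e1
      have e2 : ((p : ℝ) : ℂ) ^ (a₀ * ((M * (k * N) : ℕ) : ℤ)) =
          ((p : ℝ) : ℂ) ^ (a * ((M * n : ℕ) : ℤ) * (N₀ : ℤ)) := by
        push_cast at e1 ⊢
        rw [e1]
        congr 1
        ring
      have e3 : (p : ℝ) ^ (a₀ * ((M * (k * N) : ℕ) : ℤ)) =
          (p : ℝ) ^ (a * ((M * n : ℕ) : ℤ) * (N₀ : ℤ)) := by exact_mod_cast e2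
      have e4 := zpow_right_injective₀ (by exact_mod_cast hp1.pos)
        (by exact_mod_cast hp1.one_lt.ne') e3
      push_cast at e4
      exact e4
    have hexp' : a₀ * (k * N) = a * n * N₀ := by
      have hM' : (M : ℤ) ≠ 0 := Nat.cast_ne_zero.2 hM.ne'
      apply mul_left_cancel₀ hM'
      linear_combination hexp
    refine ⟨N * N₀, Nat.mul_pos hN hN₀, fun q hq => ?_⟩
    obtain ⟨B, hB1, hB2, hB3⟩ := h q hq
    refine ⟨B, hB1, hB2, ?_⟩
    have e1 : B.prod ^ (n * (N * N₀)) = (q : ℂ) ^ (a * n * N₀) := by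
      rw [show n * (N * N₀) = N * (n * N₀) by ring, pow_mul, hB3, ← zpow_natCast, ← _root_.zpow_mul]
      push_cast
      congr 1
      ring
    have e2 : (S q).prod ^ (k * (N * N₀)) = (q : ℂ) ^ (a₀ * (k * N)) := by
      rw [show k * (N * N₀) = N₀ * (k * N) by ring, pow_mul, hq' q hq, ← zpow_natCast, ← _root_.zpow_mul]
      push_cast
      rfl
    rw [e1, e2, hexp']
  · rintro ⟨x, hx, y, hy, hxy⟩
    have hno1 : ¬ HasSubquotient ρ 1 := by
      intro hk
      obtain ⟨N, a, hN, h⟩ := h2 1 one_pos hk
      obtain ⟨B, hB1, hB2, hB3, hB4⟩ := h x hx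
      obtain ⟨r, rfl⟩ := Multiset.card_eq_one.1 hB3
      rw [Multiset.prod_singleton] at hB4
      have h6 := Run7.h948.OP.poly_one H hH r (by
        rw [hroots]; exact Multiset.mem_of_le hB1 (Multiset.mem_singleton_self r)) N p a hB4
      rw [hroots] at h6
      exact hxy N hN (h6 x hx y hy)
    have hn2 : n ≠ 1 := by
      intro h
      apply hno1
      rw [← h]; exact hfull
    have hno2 : ¬ HasSubquotient ρ (n - 1) := by
      intro hk
      obtain ⟨N, a, hN, h⟩ := h1 (n - 1) hk
      obtain ⟨N₀, a₀, hN₀, h'⟩ := h1 n hfull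
      obtain ⟨B₀, hB1, hB2, hB3⟩ := h' p hp
      have e := Multiset.eq_of_le_of_card_le hB1 (by rw [hB2, (hSq p hp).1])
      rw [e] at hB3
      obtain ⟨B, hB4, hB5, hB6⟩ := h p hp
      obtain ⟨C, hC⟩ := Multiset.le_iff_exists_add.1 hB4
      have hC1 : Multiset.card C = 1 := by
        have := congrArg Multiset.card hC
        rw [Multiset.card_add, (hSq p hp).1, hB5] at this
        omega
      obtain ⟨r, rfl⟩ := Multiset.card_eq_one.1 hC1
      have hrS : r ∈ S p := by
        rw [hC, Multiset.mem_add]; exact Or.inr (Multiset.mem_singleton_self r)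
      have hp0 : (p : ℂ) ≠ 0 := Nat.cast_ne_zero.2 hp1.ne_zero
      have hr : r ^ (N * N₀) = (p : ℂ) ^ (a₀ * N - a * N₀) := by
        have e1 : (S p).prod = B.prod * r := by
          conv_lhs => rw [hC, Multiset.prod_add, Multiset.prod_singleton]
        have e2 : (S p).prod ^ (N * N₀) = (p : ℂ) ^ (a₀ * N) := by
          rw [mul_comm N, pow_mul, hB3, ← zpow_natCast, ← _root_.zpow_mul]
        have e3 : B.prod ^ (N * N₀) = (p : ℂ) ^ (a * N₀) := by
          rw [pow_mul, hB6, ← zpow_natCast, ← _root_.zpow_mul]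
        rw [e1, mul_pow, e3] at e2
        rw [zpow_sub₀ hp0, ← e2]
        field_simp
      have h6 := Run7.h948.OP.poly_one H hH r (by rw [hroots]; exact hrS) (N * N₀) p _ hr
      rw [hroots] at h6
      exact hxy (N * N₀) (Nat.mul_pos hN hN₀) (h6 x hx y hy)
    have hpp : ∀ r m : ℕ, r.Prime → n = r ^ m → ∀ k, HasSubquotient ρ k → r ∣ k := by
      intro r m hr hnr k hk
      by_contra hcon
      obtain ⟨N, a, hN, h⟩ := h1 k hk
      obtain ⟨B, hB1, hB2, hB3⟩ := h p hp
      obtain ⟨M, hM, hMe⟩ := Run7.h948.OP.poly_pp H hH hr (by rw [hdeg]; exact hnr) h0 B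
        (by rw [hroots]; exact hB1) (by rw [hB2]; exact hcon) N hN p hp1.ne_zero a hB3
      rw [hroots] at hMe
      exact hxy M hM (hMe x hx y hy)
    refine ⟨hpp, hno1, hno2, fun h4 hpair => ⟨hn, fun U hU => ?_⟩⟩
    by_contra hcon
    push Not at hcon
    have h3 : Module.finrank (PadicAlgCl ℓ) U ≠ 0 := by
      intro h
      exact hcon.1 (Submodule.finrank_eq_zero.1 h)
    have h5 : Module.finrank (PadicAlgCl ℓ) U < n := by
      have := Submodule.finrank_lt hcon.2
      rwa [Module.finrank_fin_fun] at this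
    have hsub : HasSubquotient ρ (Module.finrank (PadicAlgCl ℓ) U) :=
      ⟨⊥, U, hbot, hU, bot_le, by rw [finrank_bot, zero_add]⟩
    have hk2 : Module.finrank (PadicAlgCl ℓ) U = 2 := by
      obtain ⟨c, hc⟩ := hpp 2 2 Nat.prime_two (by rw [h4]; norm_num) _ hsub
      omega
    rw [hk2] at hsub
    obtain ⟨N, a, hN, h⟩ := h2 2 two_pos hsub
    obtain ⟨z, hz, hz'⟩ := hpair N a hN
    obtain ⟨B, hB1, hB2, hB3, hB4⟩ := h z hz
    obtain ⟨C, rfl⟩ := Multiset.exists_cons_of_mem hB2
    rw [Multiset.card_cons] at hB3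
    obtain ⟨w, rfl⟩ := Multiset.card_eq_one.1 (show Multiset.card C = 1 by omega)
    have hnd : (S p).Nodup := by
      have hch : CharZero E := (algebraMap E ℂ).charZero
      rw [← hroots]
      exact nodup_roots hH.separable.map
    have hwz : w ≠ z := by
      rintro rfl
      have := Multiset.nodup_of_le hB1 hnd
      rw [Multiset.nodup_cons] at this
      exact this.1 (Multiset.mem_singleton_self _)
    refine hz' w (Multiset.mem_of_le hB1 (Multiset.mem_cons_of_mem
      (Multiset.mem_singleton_self _))) hwz ?_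
    rw [Multiset.prod_cons, Multiset.prod_singleton] at hB4
    exact hB4

end Pool.Agent.Results.MP_fa5bba_nt.TransitiveHeckePolynomial
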